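import Pool.Agent.Lib.MP_5b6025_nt.DD.Defs

/-!
# Digit changes with exponent 3: module specifications (helper55)

THEOREM (`SpecTHR`). `b ≥ 2`, `t_n` bounded integers, `β = ∑ t_n b^(-n)` irrational algebraic. Then
`#{n < N : t_n ≠ 0} ≥ (log N)^(3 - δ)` for every `δ > 0` and `N ≥ N₀(δ)`.

Idea. Part A: over a field `k` in which `P` (degree `d`) has no root and `1, ..., d²` are nonzero:
a series `F ∈ k[[z]]` with `T(P G, X) = 0` at all gaps `X` has at least `c n²` nonzero coefficients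
below `W` (`n` = number of levels, about `log W / log log W`). Part B: apply this to
`F mod l` for `(log N)^(1-ε)` primes `l` without roots of `P`; the jumps of `F mod l` are invariant
under multiplication of all positions by `l^(d!)` (Frobenius); an isoperimetric inequality on
the hypercube of all products of these primes shows that the jump sets for different `l` are
essentially disjoint. Part C: existence of many primes without roots (Mertens' theorem for number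
fields). Notation: `Q_r = hasseDeriv r Q`, `F = ∑ t_n z^n`, `T(Q, X) = TT t Q X`,
TRANSFER: `GapS S K (m + j) X` and `IsSumS S j v` give `GapS S K m (X - v)` (append the multisets).
Basic lemmas (linearity, convolution formula, supports, transfer, Taylor) are in `DD/Basic.lean`.
-/

set_option autoImplicit false

open Polynomial NumberField

namespace Pool.Agent.Lib.MP5b6025.DD

/-! ## Part A: one field -/

/-- Module GAP [150 lines]: counting and gaps. At most `(A+1)^m` integers `v ≤ W` are sums of at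
most `m` elements of `S` (all elements used are `≤ W`). (1) and (2) are `DC.SpecGAPS` (proved in
`DC/Gaps.lean`, theorem `specGAPS`) for the indicator sequence of `S`. (3): for `μ ∈ ℳ` and a sum
`v` the `Y` with `μ Y ≤ v < μ Y + K` are at most `K` (as `μ ≥ 1`), and `v < μ (y + G) + K ≤ W`; so
less than `G` of the `Y ∈ [y, y + G)` are bad. -/
def SpecGAP : Prop :=
  ∀ (S : Set ℕ) (W A m : ℕ), cnt S W ≤ A →
    (∀ (K Y : ℕ), 1 ≤ K → Y + K * ((A + 1) ^ m + 1) ≤ W →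
      ∃ X : ℕ, Y ≤ X ∧ X + K ≤ Y + K * ((A + 1) ^ m + 1) ∧ GapS S K m X) ∧
    (∀ (ρ Y : ℕ), 1 ≤ ρ → ρ * ((A + 1) ^ m + 1) < Y → Y ≤ W →
      ∃ g : ℕ, Y ≤ g + ρ * ((A + 1) ^ m + 1) ∧ ρ < g ∧ g ≤ Y ∧
        ∀ v : ℕ, IsSumS S m v → v + ρ < g ∨ g ≤ v) ∧
    (∀ (K G y : ℕ) (ℳ : Finset ℕ), (∀ μ ∈ ℳ, 1 ≤ μ ∧ μ * (y + G) + K ≤ W) →
      ℳ.card * ((A + 1) ^ m * K) < G →
      ∃ Y : ℕ, y ≤ Y ∧ Y < y + G ∧ ∀ μ ∈ ℳ, GapS S K m ((μ * Y : ℕ) : ℤ))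

/-- Module NON [150]: nonconstancy. Proof. Suppose not: `T(x^j, X) = κ_j` for all `j ≤ d` and all
`κ`-gaps `X` of order `m` in `[Y, 4Y]`. Choose `κ`-gaps of order `M ≥ m + d`: `Z ∈ [Y, Y + L]`,
`X ∈ [3Y, 3Y + L]` (so `Z ≤ 2Y`, `X ≤ 4Y`, `X - Z ≥ Y`). For `j < d`, with `g = F^j`,
`T(x^(j+1), X) = ∑_w g_w T(x, X - w)`. The `w < Z` with `g_w ≠ 0` are sums of `j` elements, so
`X - w` is a gap of order `m` in `[Y, 4Y]`: they give `κ_1 ∑_{w<Z} g_w = κ_1 T(x^j, Z) = κ_1 κ_j`.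
The `w ≥ Z`: exchange the sums, `∑_{u < X - Z} t_u (T(x^j, X - u) - T(x^j, Z))`, and `X - u > Z ≥ Y`
is a gap of order `m` if `t_u ≠ 0`, so every term is `0`. Hence `κ_(j+1) = κ_1 κ_j`, `κ_0 = 1`,
`κ_j = κ_1^j` for `j ≤ d`, and `0 = T(P, X) = P(κ_1)`: a root. -/
def SpecNON : Prop :=
  ∀ (k : Type) [Field k] (P : k[X]) (t : ℕ → k) (d κ m M L Y W : ℕ), P.natDegree = d → 1 ≤ d →
    (∀ x : k, ¬ P.IsRoot x) → m + d ≤ M → 1 ≤ κ →
    (∀ X : ℕ, X ≤ W → GapS (supp t) κ m X → TT t P X = 0) →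
    (∀ Z : ℕ, Z + L ≤ W → ∃ X : ℕ, Z ≤ X ∧ X + κ ≤ Z + L ∧ GapS (supp t) κ M X) →
    L ≤ Y → 1 ≤ Y → 4 * Y ≤ W →
    ∃ (j X₁ X₂ : ℕ), j ≤ d ∧ Y ≤ X₁ ∧ X₁ ≤ X₂ ∧ X₂ ≤ 4 * Y ∧ GapS (supp t) κ m X₁ ∧
      GapS (supp t) κ m X₂ ∧ TT t ((Polynomial.X : k[X]) ^ j) X₁ ≠ TT t (Polynomial.X ^ j) X₂

/-- Module LAB [350]: existence of a label. Proof. `F = F0 + E`, `F0` = indices `≤ ρ`,
`E` = indices `> ρ`. `Q(F) = ∑_{r ≤ D} Q_r(F0) E^r`, so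
`T(Q, X) = ∑_r ∑_u (E^r)_u τ_{X-u}(Q_r(F0))`, `τ_Y(f) = ∑_{v<Y} f_v`.
(a) `u < g`, `(E^r)_u ≠ 0` (including `r = 0`, `u = 0`): `u` is a sum of `r` elements, so
`u < g - ρ`. If `w` is in the support of `F0^j`, `j + r ≤ D`, then also `u + w < g - ρ`: add the
elements (all `≤ ρ`) one by one, all partial sums are sums of at most `D` elements, never in
`[g - ρ, g)`. So `τ_{X-u}(Q_r(F0))` does not depend on `X ≥ g - ρ`: constant `κ₀ Q`.
(b) Let `𝒫` = numbers `u ≥ g` which are sums of `1, ..., D` elements `> ρ` (elements `≤ W` as long as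
`u ≤ W`). Two elements of `𝒫` below `W` differ by `< κ` or by `> hi ≥ 2κ`: clusters. Let `s` be the
least `p ∈ 𝒫` with no element of `𝒫` in `[p - κ, p)` and some `∑_{c<κ} (E^r)_{p+c} ≠ 0`. A cluster
with minimum `p < s` has `∑_{u in it} (E^r)_u = 0` for all `1 ≤ r ≤ D`, and at a `κ`-gap `X` of order
`D` all its `u` with `(E^r)_u ≠ 0` have the same `τ_{X-u}(H)`, `H = Q_r(F0)` (if `w ∈ supp H`,
`X - u ≤ w < X - p`, then `u + w ∈ [X, X + κ)` is a sum of at most `D` elements): total `0`. If there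
were no such `s < X₂` then `T(Q₀, X₁) = κ₀ Q₀ = T(Q₀, X₂)`.
(c) `u = s + c ≥ s`: `X - u ≤ ρ` and `F`, `F0` agree at indices `≤ ρ`, so
`τ_{X-u}(Q_r(F0)) = T(Q_r, X - s - c)` (`c ≥ ρ` gives `0`). `m r c = (E^r)_{s+c}`. -/
def SpecLAB : Prop :=
  ∀ (k : Type) [Field k] (t : ℕ → k) (D κ hi ρ W g X₁ X₂ : ℕ) (Q₀ : k[X]), 1 ≤ D → 1 ≤ κ →
    κ ≤ ρ → 2 * κ ≤ hi → ρ < g → g ≤ X₁ → X₁ ≤ X₂ → X₂ + ρ ≤ W → Q₀.natDegree ≤ D →
    (∀ v : ℕ, IsSumS (supp t) D v → v + ρ < g ∨ g ≤ v) →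
    ¬ Att {x | ρ < x ∧ x ≤ W ∧ t x ≠ 0} D κ hi →
    GapS (supp t) κ D X₁ → GapS (supp t) κ D X₂ → TT t Q₀ X₁ ≠ TT t Q₀ X₂ →
    ∃ (s : ℕ) (m : ℕ → ℕ → k), g ≤ s ∧ s < X₂ ∧ Lab t D κ hi ρ g s m

/-- Module JMP [400]: composition of jumps. The list is strictly decreasing (highest level first),
pairwise non-attached. `θ_a r = ∑_{c<κ} m_a(r, c)`, `σ(l)` = sum of the `s a`.
Proof. (LEFT) For `l ≠ []` with last element `a₀` put `R_l = 2^(d-|l|) lo(a₀)`. Claim: for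
`X', X''` gaps of order `(|l|+1) D` in `[σ(l) - R_l, σ(l)]`: `T(Q, X') = T(Q, X'')` (`deg Q ≤ D`).
Induction on the length, `l = a :: l'`, `X' = s_a + σ(l') + Y'`: `lf` of `a` for `X'`, `X''`, subtract:
`∑ m_a(r,c) [T(Q_r, σ(l')+Y'-c) - T(Q_r, σ(l')+Y''-c)]`; if `m_a(r,c) ≠ 0` these are gaps of order
`|l| D` (transfer). `l' = []`: both values are `0`. `c < κ`: claim for `l'` (`R_l + κ ≤ R_{l'}`).
`c > hi`: split `l' = U ++ L`, `c < lo a'` on `U`, `c > h a'` on `L` (the windows are nested, so `U` is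
an initial segment); `σ(L) + Y' - c < 0` (if `L` is not empty, `σ(L) + hi ≤ h(max L) < c`); if `U` is
empty both values are `0`; otherwise claim for `U` (`R_l + c ≤ R_U`).
(MAIN) Same induction with `X = σ + x`, `-hi ≤ x ≤ 0`, `Y = σ + y`, `κ ≤ y ≤ hi`. `c > hi`: the two
values are equal by (LEFT) for `U` (or both `0`). `c < κ`: `T(Q_r, X - s_a - c) = T(Q_r, X - s_a)`,
same for `Y` (a `w ∈ supp Q_r(F)` in between gives a sum `s_a + c + w ∈ [X, X + κ)` of at most `D`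
elements), then the statement for `l'`; total
`∑_r θ_a(r) T(Jp l' Q_r, y) = T(Jp l Q, y)`. -/
def SpecJMP : Prop :=
  ∀ (k : Type) [Field k] (t : ℕ → k) (D κ hi d : ℕ) (s ρ g lo h : ℕ → ℕ)
    (m : ℕ → ℕ → ℕ → k), 1 ≤ D → 1 ≤ κ → 2 * κ ≤ hi →
    ∀ l : List ℕ, l.length ≤ d → (∀ a ∈ l, Lab t D κ hi (ρ a) (g a) (s a) (m a)) →
    (∀ a ∈ l, g a ≤ s a ∧ hi ≤ lo a ∧ 2 ^ (d + 2) * lo a ≤ ρ a ∧ s a + ρ a ≤ h a) →
    l.Pairwise (fun a a' => a' < a ∧ (d + 1) * h a' ≤ lo a ∧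
      ∀ r ∈ Finset.Icc 1 D, ∀ c < ρ a, m a r c ≠ 0 → c < lo a' ∨ h a' < c) →
    ∀ (Q : k[X]) (X Y : ℤ), Q.natDegree ≤ D →
      GapS (supp t) κ ((l.length + 1) * D) X → GapS (supp t) κ ((l.length + 1) * D) Y →
      ((l.map s).sum : ℤ) - hi ≤ X → X ≤ ((l.map s).sum : ℤ) →
      ((l.map s).sum : ℤ) + κ ≤ Y → Y ≤ ((l.map s).sum : ℤ) + hi →
      TT t Q Y - TT t Q X =
        TT t (Jp D (l.map fun a r => ∑ c ∈ Finset.range κ, m a r c) Q) (Y - ((l.map s).sum : ℕ))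

/-- Module ORD [200]: order argument. Proof. `ord θ` = least `r ≥ 1` with `θ_r ≠ 0`
(`≤ d²`). If `ord θ ≥ d` take `G = X^(ord θ - d)`: `deg (P G) = ord θ`, so
`Jp [θ] (P G) = θ_ord · lead(P)` is a nonzero constant and `τ` of it is not `0`. So `ord θ ≤ d - 1`
for all `θ ∈ l`, and `n₀ := ∑ ord θ` satisfies `d ≤ n₀ ≤ d (d-1)` (length `d`; `d = 1` impossible).
`Jp l` kills all polynomials of degree `< n₀` and maps `X^n₀` to a nonzero constant (product of the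
`θ_ord` and the binomials `C(n₀, ord) ...`, which are nonzero because `n₀! ≠ 0` in `k`). Division:
`X^n₀ = P G + R`, `deg R < d ≤ n₀`, `deg (P G) = n₀ ≤ d²`: `τ (Jp l (X^n₀)) = 0 + 0`, a
contradiction. -/
def SpecORD : Prop :=
  ∀ (k : Type) [Field k] (P : k[X]) (d : ℕ), 1 ≤ d → P.natDegree = d →
    (∀ j ≤ d ^ 2, (j.factorial : k) ≠ 0) →
    ∀ l : List (ℕ → k), l.length = d → (∀ θ ∈ l, ∃ r ∈ Finset.Icc 1 (d ^ 2), θ r ≠ 0) →
    (∀ θ ∈ l, ∃ τ : k[X] →ₗ[k] k, τ 1 ≠ 0 ∧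
      ∀ G : k[X], (P * G).natDegree ≤ d ^ 2 → τ (Jp (d ^ 2) [θ] (P * G)) = 0) →
    (∃ τ : k[X] →ₗ[k] k, τ 1 ≠ 0 ∧
      ∀ G : k[X], (P * G).natDegree ≤ d ^ 2 → τ (Jp (d ^ 2) l (P * G)) = 0) →
    False

/-- Module SGT [200]: two-sided version of `DC.SpecSIEG` (adapt `DC/Sieg.lean`). Proof. Siegel's
lemma (`Int.Matrix.exists_ne_zero_int_vec_norm_le`, `|V|` equations with coefficients in `[-D, D]`,
`h = |𝒜| ≥ 2(|V|+1)` unknowns): integers `y_a`, not all `0`, `|y_a| ≤ D h`, with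
`∑ y_a (mult(ν'_a) - mult(ν_a)) = 0`; then `∑ y_a c_a = 0`; look at the largest `a`, `y_a ≠ 0`. -/
def SpecSGT : Prop :=
  ∀ (V : Finset ℕ) (D : ℕ) (𝒜 : Finset ℕ) (c : ℕ → ℕ), 1 ≤ D → (∀ a ∈ 𝒜, 0 < c a) →
    (∀ a ∈ 𝒜, ∃ ν ν' : Multiset ℕ, ν.card ≤ D ∧ ν'.card ≤ D ∧ (∀ x ∈ ν, x ∈ V) ∧
      (∀ x ∈ ν', x ∈ V) ∧ ν'.sum = ν.sum + c a) →
    (∀ a ∈ 𝒜, ∀ a' ∈ 𝒜, a' < a → D * 𝒜.card ^ 2 * c a' < c a) →
    𝒜.card < 2 * (V.card + 1)

/-- Module MAIN [450] (from GAP NON LAB JMP ORD SGT and `DC.SpecSEL`, proved in `DC/Sel.lean`).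
Proof (compare `DC/CoreA,B,C.lean`). `D = d²`, `M = (d+2) D`, `R = (A+n+2)^(C_R)` with `C_R` large in
terms of `d`. Levels `a = 0..n-1`: `lo a = K R^(20a+3)`, `ρ a = K R^(20a+5)`, `h a = K R^(20a+15)`,
`g a` a number in `(ρ a, K R^(20a+8)]`, `≥ K R^(20a+7)`, without sums of `≤ D` elements in
`[g - ρ, g)` (GAP 2, `A + 1 ≤ R^(1/M)`), `V_a = {ρ a < x ≤ h a, t x ≠ 0}` (disjoint for different
`a`). For `a' < a`: `a` is attached to `a'` if `Att V_a D (lo a') (h a')`. By SGT (apply it to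
every second attached `a'`; lacunary: `D n² · 2 h a' < lo (a'+2)`) at most `4 |V_a| + 8` levels are
attached to `a`. If `n² > C A` then at least `n/2` levels have `|V_a| ≤ 2 A / n`, and SEL gives
`d + 1` pairwise non-attached levels `a_d > ... > a_0`. Base: `κ = lo a_0`, `hi = h a_0`. For
`j = 1..d`: NON (`m = D`, exactness for `P`, `κ`-gaps of order `M`, `L = κ((A+1)^M+1)`) at
`Y = g (a_j)` gives `X₁, X₂ ∈ [g, 4g]`; LAB gives `s_j < 4 g`, `m_j`. Non-attachedness of `(a_j, a_i)`,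
with `ν` for `s_j` (`mem`) and `ν'` for `s_j + c` (`sup`) gives the hypothesis of JMP. Choose a
`κ`-gap `X` of order `(d+1) D` in `[σ - hi, σ - κ]` and one in `[σ + κ, σ + hi]` (GAP 1), for
`l = [a_d, .., a_1]` and for each `[a_j]`. With `τ Q = T(Q, Y - σ)` (linear, `τ 1 = 1`), JMP and
exactness (`T(P G, X) = T(P G, Y) = 0`) give `τ (Jp l (P G)) = 0`: contradiction to ORD. -/
def SpecMAIN : Prop :=
  ∀ d : ℕ, 2 ≤ d → ∃ C : ℕ, 1 ≤ C ∧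
    ∀ (k : Type) [Field k] (P : k[X]) (t : ℕ → k) (K A W n : ℕ), P.natDegree = d →
    (∀ x : k, ¬ P.IsRoot x) → (∀ j ≤ d ^ 2, (j.factorial : k) ≠ 0) → 1 ≤ K →
    cnt (supp t) W ≤ A →
    (∀ G : k[X], (P * G).natDegree ≤ d ^ 2 → ∀ X : ℕ, X ≤ W → GapS (supp t) K (d ^ 2) X →
      TT t (P * G) X = 0) →
    K * ((A + n + 2) ^ C) ^ (n + 1) ≤ W → n ^ 2 ≤ C * A

open Classical in
/-- Module BLK [300] (from MAIN, GAP): number of blocks where `F` jumps. Proof. Put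
`π v = X j` for `v ∈ [X j, X (j+1))`, `π v = 0` for `v < X 0`, and `t♯ n = ∑_{v < X m, π v = n} t_v`
(so `t♯ (X j) = T(x, X (j+1)) - T(x, X j)`; `supp t♯` has at most `1 + #{jumps}` elements).
`v - G0 < π v ≤ v`. CLAIM: if no sum of at most `j` elements of `S` is in `[Y, Y + j G0)`, `Y ≤ X m`,
then `T♯(x^j, Y) = T(x^j, Y)`. Induction with the convolution formula:
`T♯(x^(j+1), Y) = ∑_v t_v T♯(x^j, Y - π v)`, `T(x^(j+1), Y) = ∑_v t_v T(x^j, Y - v)`; for `t_v ≠ 0` no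
sum of `≤ j` elements is in `[Y - v, Y - v + (j+1) G0)`, which contains `Y - π v` and
`[Y - π v, Y - π v + j G0)`, so `T♯(x^j, Y - π v) = T(x^j, Y - π v) = T(x^j, Y - v)`.
Let `D = d²`, `K♯ = ((A+1)^D + 1)(D G0 + K)`. If `Y` is a `K♯`-gap of order `D` for `supp t♯`, then by
GAP 1 there is a `(D G0 + K)`-gap `Y'` of order `D` for `S` with `Y ≤ Y' ≤ Y + K♯`, and
`T♯(P G, Y) = T♯(P G, Y') = T(P G, Y') = 0`. Apply MAIN to `t♯`, `K♯`, `W♯ = X m - K♯`. -/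
def SpecBLK : Prop :=
  ∀ d : ℕ, 2 ≤ d → ∃ C : ℕ, 1 ≤ C ∧
    ∀ (k : Type) [Field k] (P : k[X]) (t : ℕ → k) (S : Set ℕ) (K A W G0 m n : ℕ) (X : ℕ → ℕ),
    P.natDegree = d → (∀ x : k, ¬ P.IsRoot x) → (∀ j ≤ d ^ 2, (j.factorial : k) ≠ 0) → 1 ≤ K →
    supp t ⊆ S → cnt S W ≤ A →
    (∀ G : k[X], (P * G).natDegree ≤ d ^ 2 → ∀ Y : ℕ, Y ≤ W → GapS S K (d ^ 2) Y →
      TT t (P * G) Y = 0) →
    X 0 ≤ G0 → (∀ j < m, X j < X (j + 1) ∧ X (j + 1) ≤ X j + G0) → X m ≤ W →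
    (K + G0) * ((A + n + 2) ^ C) ^ (n + 1) ≤ X m →
    n ^ 2 ≤ C * (((Finset.range m).filter fun j =>
      TT t (Polynomial.X : k[X]) (X (j + 1) : ℕ) ≠ TT t Polynomial.X (X j : ℕ)).card + 1)

/-! ## Part B: many primes -/

/-- Module EXA [150] (from `DC.SpecTAPP`, theorem `DC.specTAPP`): exactness modulo `l`. Proof. Lift
`G` to `G' ∈ ℤ[X]` with coefficients in `[0, l)`; `Q = P G'`, `deg Q ≤ D`, `Q(β) = 0`,
`l1 Q ≤ l1 P · l (D+1)`; TAPP: `∑_{v<X} coeff_v(Q(F)) / b^v = 0`, so the integer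
`∑_{v<X} coeff_v(Q(F)) b^(X-v)` is `0`; reduce modulo `l` and divide by `b^X`. (The ring
homomorphism `ℤ[[z]] → (ZMod l)[[z]]`, reduce and `z ↦ z/b`, maps `FF t` to `∑ (red l b t)_n z^n`.) -/
def SpecEXA : Prop :=
  ∀ (l b B D W K : ℕ) [Fact l.Prime] (t : ℕ → ℤ) (P : ℤ[X]) (G : (ZMod l)[X]) (X : ℕ), 2 ≤ b →
    1 ≤ B → (∀ n, |t n| ≤ B) → ¬ l ∣ b → 1 ≤ D → D ≤ W → aeval (DC.bet b t) P = 0 →
    P.natDegree + G.natDegree ≤ D →
    DC.l1 P * (l * (D + 1)) * DC.GG B D W < (b : ℝ) ^ K → X ≤ W → DC.Gap t K D X →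
    TT (red l b t) (P.map (Int.castRingHom (ZMod l)) * G) X = 0

/-- Module FRO [200]: Frobenius. Proof. `T(Q, Y)^l = T(Q^l, l Y)` for all `Q`, `Y`
(`Q(F)^l = ∑ (Q(F))_u^l z^(l u)`, characteristic `l`), and `a^l = a` in `ZMod l`. Put
`R_s = X^(l^s) % P`. Claim `T(R_s, l^s Z) = T(x, Z)` for `s ≤ d!`: `s = 0` as `d ≥ 2`;
`T(R_s, l^s Z) = T(R_s^l, l^(s+1) Z) = T(R_(s+1), l^(s+1) Z)` because `R_s^l - R_(s+1) = P G`,
`deg ≤ l d`. Finally `P ∣ X^(l^(d!)) - X` (`P` squarefree, its irreducible factors have degree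
`e ≤ d` and divide `X^(l^e) - X`), so `R_(d!) = X`. -/
def SpecFRO : Prop :=
  ∀ (l d Z : ℕ) [Fact l.Prime] (t : ℕ → ZMod l) (P : (ZMod l)[X]), P.natDegree = d → 2 ≤ d →
    P.Separable →
    (∀ s : ℕ, 1 ≤ s → s ≤ d.factorial → ∀ G : (ZMod l)[X], (P * G).natDegree ≤ l * d →
      TT t (P * G) ((l ^ s * Z : ℕ) : ℤ) = 0) →
    TT t (Polynomial.X : (ZMod l)[X]) ((l ^ d.factorial * Z : ℕ) : ℤ) = TT t Polynomial.X (Z : ℤ)

open Classical in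
/-- Module CUB [200]: hypercube. Vertices = subsets of `range h`, flip of `i` = `symmDiff a {i}`.
Proof. Edge-isoperimetric inequality: for a finite set `𝒱` of vertices
`∑_{a ∈ 𝒱} #{i < h : flip_i a ∈ 𝒱} ≤ |𝒱| log₂ |𝒱|` (induction on `h`, splitting by the last
coordinate into `x ≤ y`: `x log₂ x + y log₂ y + 2 x ≤ (x+y) log₂ (x+y)`). For fixed `j` let `𝒱_j` be
the set of `a` with some label; if `i` is a label of `a` then it is a label of the flip, so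
`∑_{a ∈ 𝒱_j} #labels ≤ |𝒱_j| log₂ |𝒱_j| ≤ |𝒱_j| (Nat.log 2 A + 1)`. Sum over `j`:
`2^h h t ≤ (Nat.log 2 A + 1) ∑_j |𝒱_j| = (Nat.log 2 A + 1) ∑_a #{j : a ∈ 𝒱_j}
≤ (Nat.log 2 A + 1) 2^h A`. -/
def SpecCUB : Prop :=
  ∀ (h m A t : ℕ) (act : Finset ℕ → ℕ → ℕ → Prop),
    (∀ a ⊆ Finset.range h, ∀ i < h, ∀ j < m, act a i j ↔ act (symmDiff a {i}) i j) →
    (∀ a ⊆ Finset.range h, ((Finset.range m).filter fun j => ∃ i < h, act a i j).card ≤ A) →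
    (∀ j < m, ((Finset.range h).powerset.filter fun a => ∃ i < h, act a i j).card ≤ A) →
    (∀ a ⊆ Finset.range h, ∀ i < h, t ≤ ((Finset.range m).filter fun j => act a i j).card) →
    h * t ≤ A * (Nat.log 2 A + 1)

open Classical in
/-- Module DSJ [100]: disjoint intervals. Proof. `lam q f` is injective on subsets of `range h`
(unique factorization). If `lam a < lam a'` then
`lam a' Y ≥ lam a Y + Y ≥ lam a Y + lam a (Y' - Y) = lam a Y'`; so the intervals are disjoint; choose an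
element of `S` in each: an injection into `{v ∈ S : v ≤ W}`. -/
def SpecDSJ : Prop :=
  ∀ (h f : ℕ) (q : ℕ → ℕ) (S : Set ℕ) (W Y Y' : ℕ), 1 ≤ f → (∀ i < h, (q i).Prime) →
    (∀ i < h, ∀ j < h, q i = q j → i = j) → Y ≤ Y' →
    (∀ a ⊆ Finset.range h, lam q f a * (Y' - Y) ≤ Y ∧ lam q f a * Y' ≤ W + 1) →
    ((Finset.range h).powerset.filter fun a =>
      ∃ v ∈ S, lam q f a * Y ≤ v ∧ v < lam q f a * Y').card ≤ cnt S W

/-- Module SPL [80]: for all large primes `P mod l` has the same degree and is separable. Proof.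
Bezout over `ℚ` for `P` and its derivative, clear denominators: `U P + V P' = N ≠ 0` in `ℤ[X]`. -/
def SpecSPL : Prop :=
  ∀ P : ℤ[X], Irreducible (P.map (Int.castRingHom ℚ)) → ∃ l₀ : ℕ, ∀ l : ℕ, l.Prime → l₀ ≤ l →
    (P.map (Int.castRingHom (ZMod l))).natDegree = P.natDegree ∧
    (P.map (Int.castRingHom (ZMod l))).Separable

/-- Module PAR [300] (pure real analysis): the parameters. `L = log N`, `η = δ/10`:
`D₀ = ⌊L^(1-η)⌋`, `h = ⌊L^(1-3η)⌋`, `n = ⌊L^(1-η)⌋`, `K = ⌊L²⌋`, `G = ⌊N^(1/10)⌋`, `G0 = ⌊N^(4/10)⌋`,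
`y = ⌊N^(3/10)⌋`, `m = ⌊N^(4/10)⌋`. All products below are `N^(o(1))` times the stated powers of `N`
(for instance `(A+1)^(d D₀) ≤ exp(3 d log L · L^(1-η))`, `D₀^(f (h+1)) ≤ exp(f (h+1) log L)`,
`((A+n+2)^C)^(n+1) ≤ exp(4 C log L (L^(1-η)+1))`), and the last condition gives
`A (Nat.log 2 A + 1) ≥ c L^(1-3η) L^(2-2η)`, `Nat.log 2 A + 1 ≤ L^η`. -/
def SpecPAR : Prop :=
  ∀ (δ c : ℝ) (C d f B b l₀ x₀ : ℕ), 0 < δ → δ ≤ 1 → 1 ≤ C → 2 ≤ d → 1 ≤ f → 1 ≤ B → 2 ≤ b →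
    ∃ N₀ : ℕ, ∀ N : ℕ, N₀ ≤ N → ∃ D₀ h n K G G0 y m : ℕ,
      x₀ ≤ D₀ ∧ d ≤ D₀ ∧ 1 ≤ h ∧ 1 ≤ K ∧ 1 ≤ G ∧ d * D₀ ≤ N ∧
      (h : ℝ) + l₀ ≤ (D₀ : ℝ) ^ (1 - δ / 10) ∧
      (∀ D ≤ d * D₀, c * (D₀ * (D + 1)) * DC.GG B D N < (b : ℝ) ^ K) ∧
      D₀ ^ (f * (h + 1)) * (y + 2 * G * (m + 1) + G) + K ≤ N ∧
      D₀ ^ (f * h) * (3 * G) ≤ y ∧ D₀ ^ (f * h) * (3 * G) ≤ G0 ∧ D₀ ^ (f * h) * (y + G) ≤ G0 ∧
      (∀ A : ℕ, (A : ℝ) + 2 ≤ Real.log N ^ 3 →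
        (2 ^ h * h * (f + 1)) * ((A + 1) ^ (d * D₀) * K) < G ∧
        (K + G0) * ((A + n + 2) ^ C) ^ (n + 1) ≤ y + 2 * G * m ∧
        (h * (n ^ 2 / C - 1) ≤ A * (Nat.log 2 A + 1) →
          Real.log N ^ (3 - δ) ≤ (A : ℝ) - 1)) ∧
      Real.log N ^ (3 - δ) ≤ Real.log N ^ 3 - 3

/-- The final theorem (module ASM [450], helper55; from BLK GAP EXA FRO CUB DSJ SPL PAR RLS). -/
def SpecTHR : Prop :=
  ∀ (b : ℕ) (t : ℕ → ℤ) (B : ℕ), 2 ≤ b → (∀ n, |t n| ≤ B) → IsAlgebraic ℚ (DC.bet b t) →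
    Irrational (DC.bet b t) → ∀ δ : ℝ, 0 < δ →
    ∃ N₀ : ℕ, ∀ N : ℕ, N₀ ≤ N →
      Real.log N ^ (3 - δ) ≤ ((Finset.range N).filter fun i => t i ≠ 0).card

/-! ## Part C: primes without roots -/

/-- The number of ideals of norm `n`. -/
noncomputable def aK (K : Type) [Field K] [NumberField K] (n : ℕ) : ℕ :=
  Nat.card {I : Ideal (𝓞 K) // Ideal.absNorm I = n}

/-- The number of prime ideals of norm `n`. -/
noncomputable def pK (K : Type) [Field K] [NumberField K] (n : ℕ) : ℕ :=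
  Nat.card {I : Ideal (𝓞 K) // I.IsPrime ∧ Ideal.absNorm I = n}

/-- Module MRA [250]: counting of ideals. Proof. For a nonzero ideal `I`,
`log N(I) = ∑_{(𝔭, j), 𝔭^j ∣ I, j ≥ 1} log N(𝔭)`; sum over all `I` with `1 ≤ N(I) ≤ x` and exchange:
the `I` divisible by `𝔭^j` are `𝔭^j J` with `N(J) ≤ x / N(𝔭)^j`. -/
def SpecMRA : Prop :=
  ∀ (K : Type) [Field K] [NumberField K] (x : ℕ),
    ∑ n ∈ Finset.Icc 1 x, (aK K n : ℝ) * Real.log n =
      ∑ m ∈ Finset.Icc 2 x, ∑ j ∈ (Finset.Icc 1 x).filter (fun j => m ^ j ≤ x),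
        (pK K m : ℝ) * Real.log m * ∑ n ∈ Finset.Icc 1 (x / m ^ j), (aK K n : ℝ)

/-- Module PPC [120]: prime ideals over a prime number. Proof. A nonzero prime ideal `𝔭` contains
exactly one prime number `l`, `N(𝔭) = l^f`, and the sum of `e f` over the `𝔭` over `l` is the degree of
`K`; an ideal of prime norm is prime. `aK 1 = 1` is not needed. -/
def SpecPPC : Prop :=
  ∀ (K : Type) [Field K] [NumberField K],
    (∀ m : ℕ, 2 ≤ m → pK K m ≠ 0 → ∃ l f : ℕ, l.Prime ∧ 1 ≤ f ∧ m = l ^ f) ∧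
    (∀ l : ℕ, l.Prime → ∀ J : ℕ,
      ∑ f ∈ Finset.Icc 1 J, f * pK K (l ^ f) ≤ Module.finrank ℚ K) ∧
    (∀ l : ℕ, l.Prime → aK K l = pK K l)

/-- Module MRB [300] (pure real analysis): Mertens' theorem. Proof. `A(y) = ∑_{1 ≤ i ≤ y} a_i`,
`|A(⌊y⌋) - κ y| ≤ ε y + C_ε` for `y ≥ 1`. Left side of the identity: `≤ A(x) log x`, and
`≥ (A(x) - A(x / log x)) (log x - log log x)`, so it is `κ x log x (1 + o(1))`. Right side: with
`S(x) = ∑_{m^j ≤ x} p_m log m / m^j` and `Ψ(x) = ∑_{m^j ≤ x} p_m log m`: between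
`(κ - ε) x S(x) - C_ε Ψ(x)` and `(κ + ε) x S(x) + C_ε Ψ(x)`. `Ψ(x) ≤ ∑_{l^i ≤ x} log l ∑_{f ∣ i} f p(l^f)
≤ n ψ(x) = O(x)` (Chebyshev). So `S(x) / log x → 1`. The terms of `S` which are not of the form
`p_l log l / l`, `l` prime, are at most `n ∑_l ∑_{i ≥ 2} log l / l^i < ∞`. -/
def SpecMRB : Prop :=
  ∀ (a p : ℕ → ℕ) (n : ℕ) (κ : ℝ), 0 < κ →
    Filter.Tendsto (fun x : ℕ => (∑ i ∈ Finset.Icc 1 x, (a i : ℝ)) / x) Filter.atTop (nhds κ) →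
    (∀ x : ℕ, ∑ i ∈ Finset.Icc 1 x, (a i : ℝ) * Real.log i =
      ∑ m ∈ Finset.Icc 2 x, ∑ j ∈ (Finset.Icc 1 x).filter (fun j => m ^ j ≤ x),
        (p m : ℝ) * Real.log m * ∑ i ∈ Finset.Icc 1 (x / m ^ j), (a i : ℝ)) →
    (∀ m : ℕ, 2 ≤ m → p m ≠ 0 → ∃ l f : ℕ, l.Prime ∧ 1 ≤ f ∧ m = l ^ f) →
    (∀ l : ℕ, l.Prime → ∀ J : ℕ, ∑ f ∈ Finset.Icc 1 J, f * p (l ^ f) ≤ n) →
    Filter.Tendsto (fun x : ℕ => (∑ l ∈ (Finset.range (x + 1)).filter Nat.Prime,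
      (p l : ℝ) * Real.log l / l) / Real.log x) Filter.atTop (nhds 1)

/-- Module RTI [250]: roots modulo `l` and ideals of norm `l`. Proof. `K = ℚ[x]/(g)` (`AdjoinRoot`), `θ`
the root (an algebraic integer), `c ≥ 1` an integer with `c 𝓞 ⊆ ℤ[θ]`, `l > c`. An ideal `I` of
norm `l` gives the homomorphism `𝓞 → 𝓞/I = ZMod l` and the root `θ mod I`; conversely a root `r` of
`g` modulo `l` gives `ℤ[θ] → ZMod l`, `θ ↦ r`, which extends to `𝓞` by `x ↦ φ(c x) / c`; its kernel has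
norm `l`. The two maps are inverse to each other (a homomorphism `𝓞 → ZMod l` is determined by its
kernel, as `ZMod l` has no nontrivial automorphism, and by the value at `θ`). -/
def SpecRTI : Prop :=
  ∀ g : ℤ[X], g.Monic → Irreducible (g.map (Int.castRingHom ℚ)) →
    ∃ (K : Type) (_ : Field K) (_ : NumberField K) (l₀ : ℕ), ∀ l : ℕ, l.Prime → l₀ ≤ l →
      nr g l = aK K l

/-- Module MRT [80] (from MRA PPC MRB RTI and `NumberField.Ideal.tendsto_norm_le_div_atTop₀`):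
Mertens' theorem for the roots of a polynomial. -/
def SpecMRT : Prop :=
  ∀ g : ℤ[X], g.Monic → Irreducible (g.map (Int.castRingHom ℚ)) →
    Filter.Tendsto (fun x : ℕ => (∑ l ∈ (Finset.range (x + 1)).filter Nat.Prime,
      (nr g l : ℝ) * Real.log l / l) / Real.log x) Filter.atTop (nhds 1)

/-- Module PAI [250]: pairs of roots. Proof. `c = lead(P)`, `d = deg P`, `g₁(x) = c^(d-1) P(x/c)`
(monic, integral): `r ↦ c r` is a bijection of the roots modulo `l ∤ c`. `β` a root of `P`,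
`γ ≠ β` another root (in an algebraic closure of `ℚ`), `δ = u β + v γ` with integers `u, v` and
`ℚ(δ) = ℚ(β, γ)` (primitive element; multiply by an integer so that `δ` is an algebraic integer),
`g₂` = minimal polynomial of `δ`. `β = B(δ)/m`, `γ = C(δ)/m`, `1/(β-γ) = H(δ)/m` with
`B, C, H ∈ ℤ[X]`. For `l ∤ m lead(P)` a root `s` of `g₂` modulo `l` gives the pair `(B(s)/m, C(s)/m)` of
different roots of `P` modulo `l`, and `s = u B(s)/m + v C(s)/m`: injective. -/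
def SpecPAI : Prop :=
  ∀ P : ℤ[X], Irreducible (P.map (Int.castRingHom ℚ)) → 2 ≤ P.natDegree →
    ∃ g₁ g₂ : ℤ[X], g₁.Monic ∧ g₂.Monic ∧ Irreducible (g₁.map (Int.castRingHom ℚ)) ∧
      Irreducible (g₂.map (Int.castRingHom ℚ)) ∧ ∃ l₀ : ℕ, ∀ l : ℕ, l.Prime → l₀ ≤ l →
        nr g₁ l = nr P l ∧ nr g₂ l ≤ nr P l * (nr P l - 1)

/-- Module RLS [200] (from MRT, PAI): primes without roots. Proof. `ρ = nr P l ≤ d` for large `l`,
and `d · [ρ = 0] ≥ (ρ-1)(ρ-d) = ρ(ρ-1) - d ρ + d`. Multiply by `log l / l` and sum over the primes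
`x^(1-η/2) < l ≤ x`; by MRT for `g₁`, `g₂` and `X` the three sums on the right are at least
`(1 - d + d + o(1)) (η/2) log x`. So `∑ log l / l` over the primes without roots in this range is
`≥ (η/(2d) + o(1)) log x`, and each term is at most `log x / x^(1-η/2)`. -/
def SpecRLS : Prop :=
  ∀ P : ℤ[X], Irreducible (P.map (Int.castRingHom ℚ)) → 2 ≤ P.natDegree → ∀ η : ℝ, 0 < η →
    ∃ x₀ : ℕ, ∀ x : ℕ, x₀ ≤ x → (x : ℝ) ^ (1 - η) ≤
      ((Finset.range (x + 1)).filter fun l => l.Prime ∧ nr P l = 0).card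

/-! ## Part D: digits -/

/-- Module FIN [100] (from THR): linear relations between consecutive digits, digit changes. Proof as
`DC.relations` (`DC/Final.lean`) and `DC.specDIG` (`DC/Dig.lean`). -/
def SpecFIN : Prop :=
  (∀ (b : ℕ) (x : ℝ), 2 ≤ b → IsAlgebraic ℚ x → Irrational x →
      ∀ q : ℤ[X], q.eval (b : ℤ) ≠ 0 → ∀ δ : ℝ, 0 < δ →
      ∃ N₀ : ℕ, ∀ N : ℕ, N₀ ≤ N → Real.log N ^ (3 - δ) ≤
          ((Finset.range N).filter fun n =>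
            q.sum (fun j a => a * DC.digit b x (n + j)) ≠ 0).card) ∧
    (∀ (b : ℕ) (x : ℝ), 2 ≤ b → IsAlgebraic ℚ x → Irrational x → ∀ δ : ℝ, 0 < δ →
      ∃ N₀ : ℕ, ∀ N : ℕ, N₀ ≤ N → Real.log N ^ (3 - δ) ≤
          ((Finset.range N).filter fun n => DC.digit b x n ≠ DC.digit b x (n + 1)).card)

end Pool.Agent.Lib.MP5b6025.DD
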