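import Pool.Agent.Lib.MP_5b6025_nt.DD.Basic
import Pool.Agent.Lib.MP_5b6025_nt.DD.Spec

/-!
# Assembly: many primes (module ASM)
-/

set_option autoImplicit false

open Polynomial

namespace Pool.Agent.Lib.MP5b6025.DD
namespace AsmM

open Basic

/-! ## The polynomial -/

theorem exists_poly {β : ℝ} (h1 : IsAlgebraic ℚ β) (h2 : Irrational β) :
    ∃ P : ℤ[X], Irreducible (P.map (Int.castRingHom ℚ)) ∧ aeval β P = 0 ∧ 2 ≤ P.natDegree := by
  have hint : IsIntegral ℚ β := h1.isIntegral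
  obtain ⟨c, hc0, hc⟩ := IsLocalization.integerNormalization_spec (nonZeroDivisors ℤ)
    (minpoly ℚ β)
  set P := IsLocalization.integerNormalization (nonZeroDivisors ℤ) (minpoly ℚ β) with hP
  have hc0' : (c : ℚ) ≠ 0 := by
    have := nonZeroDivisors.ne_zero hc0
    exact_mod_cast this
  have hmap : P.map (Int.castRingHom ℚ) = C (c : ℚ) * minpoly ℚ β := by
    rw [← smul_eq_C_mul]
    have h3 : (algebraMap ℤ ℚ) = Int.castRingHom ℚ := rfl
    rw [← h3, hc]
    ext i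
    simp
  have hirr : Irreducible (P.map (Int.castRingHom ℚ)) := by
    rw [hmap]
    have hu : IsUnit (C (c : ℚ)) := isUnit_C.2 (isUnit_iff_ne_zero.2 hc0')
    exact (associated_unit_mul_left _ _ hu).symm.irreducible (minpoly.irreducible hint)
  refine ⟨P, hirr, ?_, ?_⟩
  · have h3 : aeval β (P.map (Int.castRingHom ℚ)) = aeval β P := by
      have := aeval_map_algebraMap ℚ β P
      exact this
    rw [← h3, hmap, map_mul, minpoly.aeval, mul_zero]
  · have h3 : P.natDegree = (minpoly ℚ β).natDegree := by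
      rw [← natDegree_map_eq_of_injective (RingHom.injective_int (Int.castRingHom ℚ)) P, hmap,
        natDegree_C_mul hc0']
    rw [h3]
    have h4 := minpoly.natDegree_pos hint
    rcases Nat.lt_or_ge 1 (minpoly ℚ β).natDegree with h5 | h5
    · exact h5
    · exfalso
      have h6 : (minpoly ℚ β).natDegree = 1 := by omega
      rw [minpoly.natDegree_eq_one_iff] at h6
      obtain ⟨r, hr⟩ := h6
      exact h2 ⟨r, by rw [← hr]; rfl⟩

/-! ## Primes -/

theorem no_root {P : ℤ[X]} {l : ℕ} [Fact l.Prime] (h : nr P l = 0) (x : ZMod l) :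
    ¬ (P.map (Int.castRingHom (ZMod l))).IsRoot x := by
  intro hx
  unfold nr at h
  rw [Finset.card_eq_zero, Finset.filter_eq_empty_iff] at h
  apply h (Finset.mem_range.2 (ZMod.val_lt x))
  rw [← ZMod.intCast_zmod_eq_zero_iff_dvd]
  have h1 : ((P.eval ((x.val : ℕ) : ℤ) : ℤ) : ZMod l) =
      (P.map (Int.castRingHom (ZMod l))).eval x := by
    have h2 := Polynomial.eval_natCast_map (Int.castRingHom (ZMod l)) P x.val
    rw [eq_intCast, ZMod.natCast_zmod_val] at h2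
    exact h2.symm
  rw [h1]
  exact hx

theorem factorial_ne {l j : ℕ} [hl : Fact l.Prime] (h : j < l) : (j.factorial : ZMod l) ≠ 0 := by
  intro h0
  rw [ZMod.natCast_eq_zero_iff] at h0
  rw [hl.out.dvd_factorial] at h0
  omega

theorem exists_q {P : ℤ[X]} {D₀ h l₀ : ℕ} {η : ℝ} (h1 : (h : ℝ) + l₀ ≤ (D₀ : ℝ) ^ (1 - η))
    (h2 : (D₀ : ℝ) ^ (1 - η) ≤
      ((Finset.range (D₀ + 1)).filter fun l => l.Prime ∧ nr P l = 0).card) :
    ∃ q : ℕ → ℕ, (∀ i, (q i).Prime) ∧ (∀ i < h, l₀ ≤ q i ∧ q i ≤ D₀ ∧ nr P (q i) = 0) ∧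
      (∀ i < h, ∀ j < h, q i = q j → i = j) := by
  set T := (Finset.range (D₀ + 1)).filter fun l => l.Prime ∧ nr P l = 0 with hT
  set T' := T.filter (fun l => l₀ ≤ l) with hT'
  have h3 : h + l₀ ≤ T.card := by
    have : (h : ℝ) + l₀ ≤ T.card := h1.trans h2
    exact_mod_cast this
  have h4 : T.card = T'.card + (T.filter (fun l => ¬ l₀ ≤ l)).card :=
    (Finset.card_filter_add_card_filter_not (s := T) (fun l => l₀ ≤ l)).symm
  have h5 : (T.filter (fun l => ¬ l₀ ≤ l)).card ≤ l₀ := by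
    calc _ ≤ (Finset.range l₀).card := by
          apply Finset.card_le_card
          intro l hl
          rw [Finset.mem_filter] at hl
          exact Finset.mem_range.2 (by omega)
      _ = l₀ := Finset.card_range _
  obtain ⟨T₂, hT₂, hc⟩ := Finset.exists_subset_card_eq (s := T') (n := h) (by omega)
  let e := T₂.orderEmbOfFin hc
  have he : ∀ i, (e i) ∈ T' := fun i => hT₂ (T₂.orderEmbOfFin_mem hc i)
  have he' : ∀ i, (e i).Prime ∧ nr P (e i) = 0 ∧ l₀ ≤ e i ∧ e i ≤ D₀ := by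
    intro i
    have := he i
    rw [hT', Finset.mem_filter, hT, Finset.mem_filter, Finset.mem_range] at this
    exact ⟨this.1.2.1, this.1.2.2, this.2, by omega⟩
  refine ⟨fun i => if hi : i < h then e ⟨i, hi⟩ else 2, ?_, ?_, ?_⟩
  · intro i
    by_cases hi : i < h
    · simp only [hi, dif_pos]
      exact (he' _).1
    · simp only [hi, dif_neg, not_false_eq_true]
      exact Nat.prime_two
  · intro i hi
    simp only [hi, dif_pos]
    exact ⟨(he' _).2.2.1, (he' _).2.2.2, (he' _).2.1⟩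
  · intro i hi j hj hij
    simp only [hi, hj, dif_pos] at hij
    have := e.injective hij
    simpa using this

/-! ## Multipliers -/

theorem lam_pos {q : ℕ → ℕ} (hq : ∀ i, (q i).Prime) (f : ℕ) (a : Finset ℕ) : 1 ≤ lam q f a :=
  Finset.prod_pos fun i _ => pow_pos (hq i).pos f

theorem lam_le {q : ℕ → ℕ} {D₀ h : ℕ} (hD : 1 ≤ D₀) (hq : ∀ i < h, q i ≤ D₀) (f : ℕ)
    {a : Finset ℕ} (ha : a ⊆ Finset.range h) : lam q f a ≤ D₀ ^ (f * h) := by
  calc lam q f a ≤ (D₀ ^ f) ^ a.card :=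
        Finset.prod_le_pow_card _ _ _ fun i hi =>
          Nat.pow_le_pow_left (hq i (Finset.mem_range.1 (ha hi))) f
    _ ≤ (D₀ ^ f) ^ h := by
        apply Nat.pow_le_pow_right (pow_pos hD f)
        calc a.card ≤ (Finset.range h).card := Finset.card_le_card ha
          _ = h := Finset.card_range h
    _ = D₀ ^ (f * h) := by rw [pow_mul]

theorem lam_insert (q : ℕ → ℕ) (f : ℕ) {a : Finset ℕ} {i : ℕ} (hi : i ∉ a) :
    lam q f (insert i a) = q i ^ f * lam q f a := by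
  unfold lam
  rw [Finset.prod_insert hi]

/-- The multipliers. -/
def mult (q : ℕ → ℕ) (f h : ℕ) : Finset ℕ :=
  ((Finset.range h).powerset ×ˢ (Finset.range h ×ˢ Finset.range (f + 1))).image
    fun p => lam q f p.1 * q p.2.1 ^ p.2.2

theorem mem_mult {q : ℕ → ℕ} {f h : ℕ} {a : Finset ℕ} (ha : a ⊆ Finset.range h) {i s : ℕ}
    (hi : i < h) (hs : s ≤ f) : lam q f a * q i ^ s ∈ mult q f h := by
  unfold mult
  rw [Finset.mem_image]
  refine ⟨(a, (i, s)), ?_, rfl⟩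
  rw [Finset.mem_product, Finset.mem_product, Finset.mem_powerset, Finset.mem_range,
    Finset.mem_range]
  exact ⟨ha, hi, by simpa using Nat.lt_succ_of_le hs⟩

theorem card_mult_le (q : ℕ → ℕ) (f h : ℕ) : (mult q f h).card ≤ 2 ^ h * h * (f + 1) := by
  unfold mult
  refine Finset.card_image_le.trans ?_
  rw [Finset.card_product, Finset.card_product, Finset.card_powerset, Finset.card_range,
    Finset.card_range, mul_assoc]

theorem mult_le {q : ℕ → ℕ} {D₀ h f : ℕ} (hq : ∀ i, (q i).Prime) (hD : 1 ≤ D₀)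
    (hq' : ∀ i < h, q i ≤ D₀) {μ : ℕ} (hμ : μ ∈ mult q f h) :
    1 ≤ μ ∧ μ ≤ D₀ ^ (f * (h + 1)) := by
  unfold mult at hμ
  rw [Finset.mem_image] at hμ
  obtain ⟨⟨a, i, s⟩, h1, rfl⟩ := hμ
  rw [Finset.mem_product, Finset.mem_product, Finset.mem_powerset, Finset.mem_range,
    Finset.mem_range] at h1
  simp only at h1 ⊢
  refine ⟨Nat.mul_pos (lam_pos hq f a) (pow_pos (hq i).pos s), ?_⟩
  calc lam q f a * q i ^ s ≤ D₀ ^ (f * h) * D₀ ^ f := by
        apply Nat.mul_le_mul (lam_le hD hq' f h1.1)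
        exact (Nat.pow_le_pow_left (hq' i h1.2.1) s).trans
          (Nat.pow_le_pow_right hD (by omega))
    _ = D₀ ^ (f * (h + 1)) := by rw [← pow_add]; ring_nf

/-! ## Exactness and Frobenius modulo `l` -/

theorem natDegree_mul_le_iff {l : ℕ} [Fact l.Prime] {P G : (ZMod l)[X]} (hP : P ≠ 0) {D : ℕ}
    (h : (P * G).natDegree ≤ D) : G = 0 ∨ P.natDegree + G.natDegree ≤ D := by
  by_cases hG : G = 0
  · exact Or.inl hG
  · right
    rwa [natDegree_mul hP hG] at h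

theorem exact (hEXA : SpecEXA) {l b B D N K D₀ : ℕ} [Fact l.Prime] {t : ℕ → ℤ} {P : ℤ[X]}
    (hb : 2 ≤ b) (hB : 1 ≤ B) (ht : ∀ n, |t n| ≤ B) (hlb : ¬ l ∣ b) (hD1 : 1 ≤ D) (hDN : D ≤ N)
    (hP : aeval (DC.bet b t) P = 0)
    (hdeg : (P.map (Int.castRingHom (ZMod l))).natDegree = P.natDegree)
    (hP0 : P.map (Int.castRingHom (ZMod l)) ≠ 0) (hlD : l ≤ D₀)
    (hK : DC.l1 P * (D₀ * (D + 1)) * DC.GG B D N < (b : ℝ) ^ K) (G : (ZMod l)[X])
    (hG : (P.map (Int.castRingHom (ZMod l)) * G).natDegree ≤ D) {X : ℕ} (hX : X ≤ N)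
    (hgap : GapS {x | t x ≠ 0} K D X) :
    TT (red l b t) (P.map (Int.castRingHom (ZMod l)) * G) X = 0 := by
  rcases natDegree_mul_le_iff hP0 hG with h0 | h0
  · rw [h0, mul_zero, TT_zero]
  · rw [hdeg] at h0
    refine hEXA l b B D N K t P G X hb hB ht hlb hD1 hDN hP h0 (lt_of_le_of_lt ?_ hK) hX hgap
    have h1 : (0 : ℝ) ≤ DC.l1 P := Finset.sum_nonneg fun _ _ => abs_nonneg _
    have h2 : (0 : ℝ) ≤ DC.GG B D N := by unfold DC.GG; positivity
    have h3 : (l : ℝ) ≤ D₀ := by exact_mod_cast hlD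
    gcongr

theorem flip (hEXA : SpecEXA) (hFRO : SpecFRO) {l b B N K D₀ d : ℕ} [Fact l.Prime] {t : ℕ → ℤ}
    {P : ℤ[X]} (hb : 2 ≤ b) (hB : 1 ≤ B) (ht : ∀ n, |t n| ≤ B) (hlb : ¬ l ∣ b)
    (hd : 2 ≤ d) (hPd : P.natDegree = d) (hP : aeval (DC.bet b t) P = 0)
    (hdeg : (P.map (Int.castRingHom (ZMod l))).natDegree = P.natDegree)
    (hsep : (P.map (Int.castRingHom (ZMod l))).Separable) (hlD : l ≤ D₀) (hDN : d * D₀ ≤ N)
    (hK : ∀ D ≤ d * D₀, DC.l1 P * (D₀ * (D + 1)) * DC.GG B D N < (b : ℝ) ^ K) {Z : ℕ}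
    (hgap : ∀ s, 1 ≤ s → s ≤ d.factorial → GapS {x | t x ≠ 0} K (d * D₀) ((l ^ s * Z : ℕ) : ℤ))
    (hZ : l ^ d.factorial * Z ≤ N) :
    TT (red l b t) (Polynomial.X : (ZMod l)[X]) ((l ^ d.factorial * Z : ℕ) : ℤ) =
      TT (red l b t) Polynomial.X (Z : ℤ) := by
  have hl : 2 ≤ l := (Fact.out : l.Prime).two_le
  have hle : l * d ≤ d * D₀ := by rw [mul_comm]; exact Nat.mul_le_mul_left d hlD
  refine hFRO l d Z (red l b t) (P.map (Int.castRingHom (ZMod l))) (by rw [hdeg, hPd]) hd hsep ?_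
  intro s hs1 hs2 G hG
  have hP0 : P.map (Int.castRingHom (ZMod l)) ≠ 0 := hsep.ne_zero
  refine exact hEXA hb hB ht hlb (Nat.mul_pos (by omega) (by omega)) (hle.trans hDN) hP hdeg hP0
    hlD (hK _ hle) G hG ?_ (gapS_mono (hgap s hs1 hs2) hle)
  exact (Nat.mul_le_mul_right Z (Nat.pow_le_pow_right (by omega) hs2)).trans hZ

/-! ## Jumps -/

theorem exists_of_jump {k : Type} [Field k] {t : ℕ → k} {u w : ℕ} (huw : u ≤ w)
    (h : TT t (Polynomial.X : k[X]) (w : ℤ) ≠ TT t Polynomial.X (u : ℤ)) :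
    ∃ v, u ≤ v ∧ v < w ∧ t v ≠ 0 := by
  by_contra hcon
  apply h
  rw [TT_eq, TT_eq, aeval_X]
  symm
  apply tau_congr
  intro v h1 h2
  have huw' : (u : ℤ) ≤ w := by exact_mod_cast huw
  rw [min_eq_left huw'] at h1
  rw [max_eq_right huw'] at h2
  rw [PowerSeries.coeff_mk]
  by_contra h3
  exact hcon ⟨v, by exact_mod_cast h1, by exact_mod_cast h2, h3⟩

theorem supp_red (l b : ℕ) [Fact l.Prime] (t : ℕ → ℤ) : supp (red l b t) ⊆ {x | t x ≠ 0} := by
  intro x hx h0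
  apply hx
  unfold red
  rw [h0]
  simp

/-- The prime `q i` jumps in the `j`-th block of the scale `a`. -/
def act (q : ℕ → ℕ) [∀ i, Fact (q i).Prime] (b : ℕ) (t : ℕ → ℤ) (f : ℕ) (Y : ℕ → ℕ)
    (a : Finset ℕ) (i j : ℕ) : Prop :=
  TT (red (q i) b t) (Polynomial.X : (ZMod (q i))[X]) ((lam q f a * Y (j + 1) : ℕ) : ℤ) ≠
    TT (red (q i) b t) Polynomial.X ((lam q f a * Y j : ℕ) : ℤ)

theorem exists_of_act {q : ℕ → ℕ} [∀ i, Fact (q i).Prime] {b : ℕ} {t : ℕ → ℤ} {f : ℕ}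
    {Y : ℕ → ℕ} {a : Finset ℕ} {i j : ℕ} (hY : Y j ≤ Y (j + 1)) (h : act q b t f Y a i j) :
    ∃ v, t v ≠ 0 ∧ lam q f a * Y j ≤ v ∧ v < lam q f a * Y (j + 1) := by
  obtain ⟨v, h1, h2, h3⟩ := exists_of_jump (Nat.mul_le_mul_left _ hY) h
  exact ⟨v, supp_red (q i) b t h3, h1, h2⟩

theorem mono_of_step {Y : ℕ → ℕ} {m : ℕ} (hY : ∀ j < m, Y j < Y (j + 1)) {j j' : ℕ}
    (h : j ≤ j') (hj : j' ≤ m) : Y j ≤ Y j' := by
  induction j', h using Nat.le_induction with
  | base => exact le_rfl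
  | succ j' hjj ih => exact (ih (by omega)).trans (hY j' (by omega)).le

open Classical in
theorem card_blocks {q : ℕ → ℕ} [∀ i, Fact (q i).Prime] {b : ℕ} {t : ℕ → ℤ} {f m h N : ℕ}
    {Y : ℕ → ℕ} {a : Finset ℕ} (hY : ∀ j < m, Y j < Y (j + 1))
    (hN : lam q f a * Y m ≤ N) :
    ((Finset.range m).filter fun j => ∃ i < h, act q b t f Y a i j).card ≤
      cnt {x | t x ≠ 0} N := by
  have h1 : ∀ j ∈ (Finset.range m).filter (fun j => ∃ i < h, act q b t f Y a i j),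
      ∃ v, t v ≠ 0 ∧ lam q f a * Y j ≤ v ∧ v < lam q f a * Y (j + 1) := by
    intro j hj
    rw [Finset.mem_filter, Finset.mem_range] at hj
    obtain ⟨i, _, hi⟩ := hj.2
    exact exists_of_act (hY j hj.1).le hi
  choose! v hv1 hv2 hv3 using h1
  unfold cnt
  apply Finset.card_le_card_of_injOn v
  · intro j hj
    have hj' := hj
    rw [Finset.mem_coe, Finset.mem_filter, Finset.mem_range] at hj'
    refine Finset.mem_coe.2 ((@Finset.mem_filter _ _ (_) _ _).2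
      ⟨Finset.mem_range.2 ?_, hv1 j hj⟩)
    have h2 := hv3 j hj
    have h3 : lam q f a * Y (j + 1) ≤ lam q f a * Y m :=
      Nat.mul_le_mul_left _ (mono_of_step hY (by omega) le_rfl)
    omega
  · intro j hj j' hj' heq
    have key : ∀ j j' : ℕ, j ∈ (Finset.range m).filter (fun j => ∃ i < h, act q b t f Y a i j) →
        j' ∈ (Finset.range m).filter (fun j => ∃ i < h, act q b t f Y a i j) → j < j' →
        v j < v j' := by
      intro j j' hj hj' hlt
      have h2 := hv3 j hj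
      have h3 := hv2 j' hj'
      rw [Finset.mem_filter, Finset.mem_range] at hj'
      have h4 : lam q f a * Y (j + 1) ≤ lam q f a * Y j' :=
        Nat.mul_le_mul_left _ (mono_of_step hY (by omega) (by omega))
      omega
    rcases lt_trichotomy j j' with hlt | hlt | hlt
    · have := key j j' hj hj' hlt
      omega
    · exact hlt
    · have := key j' j hj' hj hlt
      omega

open Classical in
/-- The statement of `SpecBLK` for given `d`, `C`. -/
def BlkAt (d C : ℕ) : Prop :=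
  ∀ (k : Type) [Field k] (P : k[X]) (t : ℕ → k) (S : Set ℕ) (K A W G0 m n : ℕ) (X : ℕ → ℕ),
    P.natDegree = d → (∀ x : k, ¬ P.IsRoot x) → (∀ j ≤ d ^ 2, (j.factorial : k) ≠ 0) → 1 ≤ K →
    supp t ⊆ S → cnt S W ≤ A →
    (∀ G : k[X], (P * G).natDegree ≤ d ^ 2 → ∀ Y : ℕ, Y ≤ W → GapS S K (d ^ 2) Y →
      TT t (P * G) Y = 0) →
    X 0 ≤ G0 → (∀ j < m, X j < X (j + 1) ∧ X (j + 1) ≤ X j + G0) → X m ≤ W →
    (K + G0) * ((A + n + 2) ^ C) ^ (n + 1) ≤ X m →
    n ^ 2 ≤ C * (((Finset.range m).filter fun j =>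
      TT t (Polynomial.X : k[X]) (X (j + 1) : ℕ) ≠ TT t Polynomial.X (X j : ℕ)).card + 1)

open Classical in
/-- One value of `N`. -/
theorem core (hEXA : SpecEXA) (hFRO : SpecFRO) (hCUB : SpecCUB) (hDSJ : SpecDSJ)
    {d C : ℕ} (hC : BlkAt d C) {b B N K D₀ h n G0 m A : ℕ} {t : ℕ → ℤ} {P : ℤ[X]}
    {q : ℕ → ℕ} [hq : ∀ i, Fact (q i).Prime] {Y : ℕ → ℕ}
    (hd : 2 ≤ d) (hPd : P.natDegree = d) (hb : 2 ≤ b) (hB : 1 ≤ B) (ht : ∀ n, |t n| ≤ B)
    (hP : aeval (DC.bet b t) P = 0) (hK1 : 1 ≤ K)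
    (hq1 : ∀ i < h, d ^ 2 < q i ∧ b < q i ∧ q i ≤ D₀ ∧ nr P (q i) = 0)
    (hq2 : ∀ i < h, (P.map (Int.castRingHom (ZMod (q i)))).natDegree = P.natDegree ∧
      (P.map (Int.castRingHom (ZMod (q i)))).Separable)
    (hinj : ∀ i < h, ∀ j < h, q i = q j → i = j)
    (hdD : d ≤ D₀) (hDN : d * D₀ ≤ N)
    (hK : ∀ D ≤ d * D₀, DC.l1 P * (D₀ * (D + 1)) * DC.GG B D N < (b : ℝ) ^ K)
    (hA : cnt {x | t x ≠ 0} N = A)
    (hY0 : ∀ a ⊆ Finset.range h, lam q d.factorial a * Y 0 ≤ G0)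
    (hY1 : ∀ j < m, Y j < Y (j + 1))
    (hY2 : ∀ a ⊆ Finset.range h, ∀ j < m, lam q d.factorial a * (Y (j + 1) - Y j) ≤ G0 ∧
      lam q d.factorial a * (Y (j + 1) - Y j) ≤ Y j)
    (hY3 : ∀ μ ∈ mult q d.factorial h, ∀ j ≤ m,
      GapS {x | t x ≠ 0} K (d * D₀) ((μ * Y j : ℕ) : ℤ) ∧ μ * Y j ≤ N)
    (hY4 : (K + G0) * ((A + n + 2) ^ C) ^ (n + 1) ≤ Y m) :
    h * (n ^ 2 / C - 1) ≤ A * (Nat.log 2 A + 1) := by
  set f := d.factorial with hf
  have hf1 : 1 ≤ f := Nat.factorial_pos d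
  have hqp : ∀ i, (q i).Prime := fun i => (hq i).out
  have hlp : ∀ a, 1 ≤ lam q f a := fun a => lam_pos hqp f a
  have hlb : ∀ i < h, ¬ q i ∣ b := by
    intro i hi hdvd
    have := Nat.le_of_dvd (by omega) hdvd
    have := (hq1 i hi).2.1
    omega
  have hd2 : 1 ≤ d ^ 2 := pow_pos (by omega : 0 < d) 2
  have hdd : d ^ 2 ≤ d * D₀ := by rw [pow_two]; exact Nat.mul_le_mul_left d hdD
  have hP0 : ∀ i < h, P.map (Int.castRingHom (ZMod (q i))) ≠ 0 := fun i hi =>
    (hq2 i hi).2.ne_zero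
  -- gaps and bounds at the scales
  have hsc : ∀ a ⊆ Finset.range h, ∀ i < h, ∀ s ≤ f, ∀ j ≤ m,
      GapS {x | t x ≠ 0} K (d * D₀) ((lam q f a * q i ^ s * Y j : ℕ) : ℤ) ∧
        lam q f a * q i ^ s * Y j ≤ N := fun a ha i hi s hs j hj =>
    hY3 _ (mem_mult ha hi hs) j hj
  have hsc0 : ∀ a ⊆ Finset.range h, ∀ i < h, ∀ j ≤ m, lam q f a * Y j ≤ N := by
    intro a ha i hi j hj
    have := (hsc a ha i hi 0 (Nat.zero_le _) j hj).2
    rwa [pow_zero, mul_one] at this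
  -- flip of one prime
  have hflip : ∀ a ⊆ Finset.range h, ∀ i < h, i ∉ a → ∀ j ≤ m,
      TT (red (q i) b t) (Polynomial.X : (ZMod (q i))[X])
        ((lam q f (insert i a) * Y j : ℕ) : ℤ) =
      TT (red (q i) b t) Polynomial.X ((lam q f a * Y j : ℕ) : ℤ) := by
    intro a ha i hi hia j hj
    have h1 : lam q f (insert i a) * Y j = q i ^ d.factorial * (lam q f a * Y j) := by
      rw [lam_insert q f hia, ← hf]; ring
    have h2 : ∀ s, q i ^ s * (lam q f a * Y j) = lam q f a * q i ^ s * Y j := fun s => by ring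
    rw [h1]
    refine flip hEXA hFRO hb hB ht (hlb i hi) hd hPd hP (hq2 i hi).1 (hq2 i hi).2
      (hq1 i hi).2.2.1 hDN hK ?_ ?_
    · intro s _ hs
      rw [h2]
      exact (hsc a ha i hi s hs j hj).1
    · rw [h2]
      exact (hsc a ha i hi f le_rfl j hj).2
  have hact : ∀ a ⊆ Finset.range h, ∀ i < h, i ∉ a → ∀ j < m,
      (act q b t f Y (insert i a) i j ↔ act q b t f Y a i j) := by
    intro a ha i hi hia j hj
    unfold act
    rw [hflip a ha i hi hia j (by omega), hflip a ha i hi hia (j + 1) (by omega)]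
  refine hCUB h m A (n ^ 2 / C - 1) (act q b t f Y) ?_ ?_ ?_ ?_
  · intro a ha i hi j hj
    by_cases hia : i ∈ a
    · have h1 : symmDiff a {i} = a.erase i := by
        ext x
        simp only [Finset.mem_symmDiff, Finset.mem_singleton, Finset.mem_erase]
        constructor
        · rintro (⟨h2, h3⟩ | ⟨rfl, h3⟩)
          · exact ⟨h3, h2⟩
          · exact absurd hia h3
        · rintro ⟨h2, h3⟩
          exact Or.inl ⟨h3, h2⟩
      rw [h1]
      have h2 := hact (a.erase i) ((Finset.erase_subset _ _).trans ha) i hi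
        (Finset.notMem_erase i a) j hj
      rwa [Finset.insert_erase hia] at h2
    · have h1 : symmDiff a {i} = insert i a := by
        ext x
        simp only [Finset.mem_symmDiff, Finset.mem_singleton, Finset.mem_insert]
        constructor
        · rintro (⟨h2, h3⟩ | ⟨h2, h3⟩)
          · exact Or.inr h2
          · exact Or.inl h2
        · rintro (rfl | h3)
          · exact Or.inr ⟨rfl, hia⟩
          · refine Or.inl ⟨h3, ?_⟩
            rintro rfl
            exact hia h3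
      rw [h1]
      exact (hact a ha i hi hia j hj).symm
  · intro a ha
    rcases Nat.eq_zero_or_pos h with h0 | h0
    · have : ((Finset.range m).filter fun j => ∃ i < h, act q b t f Y a i j) = ∅ := by
        rw [Finset.filter_eq_empty_iff]
        rintro j _ ⟨i, hi, _⟩
        omega
      rw [this]
      simp
    · rw [← hA]
      exact card_blocks hY1 (hsc0 a ha 0 h0 m le_rfl)
  · intro j hj
    rcases Nat.eq_zero_or_pos h with h0 | h0
    · have : ((Finset.range h).powerset.filter fun a => ∃ i < h, act q b t f Y a i j) = ∅ := by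
        rw [Finset.filter_eq_empty_iff]
        rintro a _ ⟨i, hi, _⟩
        omega
      rw [this]
      simp
    · rw [← hA]
      refine le_trans (Finset.card_le_card ?_) (hDSJ h f q {x | t x ≠ 0} N (Y j) (Y (j + 1)) hf1
        (fun i _ => hqp i) hinj (hY1 j hj).le ?_)
      · intro a ha
        rw [Finset.mem_filter] at ha ⊢
        refine ⟨ha.1, ?_⟩
        obtain ⟨i, _, hi⟩ := ha.2
        obtain ⟨v, hv1, hv2, hv3⟩ := exists_of_act (hY1 j hj).le hi
        exact ⟨v, hv1, hv2, hv3⟩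
      · intro a ha
        refine ⟨(hY2 a ha j hj).2, ?_⟩
        have := hsc0 a ha 0 h0 (j + 1) (by omega)
        omega
  · intro a ha i hi
    have h1 := hC (ZMod (q i)) (P.map (Int.castRingHom (ZMod (q i)))) (red (q i) b t)
      {x | t x ≠ 0} K A N G0 m n (fun j => lam q f a * Y j) (by rw [(hq2 i hi).1, hPd])
      (no_root (hq1 i hi).2.2.2)
      (fun j hj => factorial_ne (by have := (hq1 i hi).1; omega)) hK1 (supp_red _ _ _) hA.le
      (fun G hG Z hZ hgap => exact hEXA hb hB ht (hlb i hi) hd2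
        (hdd.trans hDN) hP
        (hq2 i hi).1 (hP0 i hi) (hq1 i hi).2.2.1 (hK _ hdd) G hG hZ hgap)
      (hY0 a ha)
      (fun j hj => ⟨Nat.mul_lt_mul_of_pos_left (hY1 j hj) (hlp a), ?_⟩)
      (hsc0 a ha i hi m le_rfl) (hY4.trans (Nat.le_mul_of_pos_left _ (hlp a)))
    · have h2 : n ^ 2 / C ≤ ((Finset.range m).filter fun j => act q b t f Y a i j).card + 1 := by
        apply Nat.div_le_of_le_mul
        refine h1.trans (le_of_eq ?_)
        congr 2
        refine congrArg Finset.card (Finset.ext fun j => ?_)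
        rw [@Finset.mem_filter _ _ (_) _ _, @Finset.mem_filter _ _ (_) _ _]
        exact Iff.rfl
      omega
    · have h3 := (hY2 a ha j hj).1
      rw [Nat.mul_sub] at h3
      omega

theorem thr1 (hBLK : SpecBLK) (hGAP : SpecGAP) (hEXA : SpecEXA) (hFRO : SpecFRO)
    (hCUB : SpecCUB) (hDSJ : SpecDSJ) (hSPL : SpecSPL) (hPAR : SpecPAR) (hRLS : SpecRLS)
    (b : ℕ) (t : ℕ → ℤ) (B : ℕ) (hb : 2 ≤ b) (hB : 1 ≤ B) (ht : ∀ n, |t n| ≤ B)
    (halg : IsAlgebraic ℚ (DC.bet b t)) (hirr : Irrational (DC.bet b t)) (δ : ℝ) (hδ : 0 < δ)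
    (hδ1 : δ ≤ 1) :
    ∃ N₀ : ℕ, ∀ N : ℕ, N₀ ≤ N →
      Real.log N ^ (3 - δ) ≤ ((Finset.range N).filter fun i => t i ≠ 0).card := by
  obtain ⟨P, hPirr, hPβ, hPd⟩ := exists_poly halg hirr
  obtain ⟨d, hd⟩ : ∃ d, P.natDegree = d := ⟨_, rfl⟩
  rw [hd] at hPd
  obtain ⟨C, hC1, hC⟩ := hBLK d hPd
  obtain ⟨l₁, hl₁⟩ := hSPL P hPirr
  obtain ⟨x₀, hx₀⟩ := hRLS P hPirr (by omega) (δ / 10) (by positivity)
  obtain ⟨N₀, hN₀⟩ := hPAR δ (DC.l1 P) C d d.factorial B b (l₁ + b + d ^ 2 + 1) x₀ hδ hδ1 hC1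
    hPd (Nat.factorial_pos d) hB hb
  refine ⟨N₀, fun N hN => ?_⟩
  obtain ⟨D₀, h, n, K, G, G0, y, m, p1, p2, p3, p4, p5, p6, p7, p8, p9, p10, p11, p12, p13,
    p14⟩ := hN₀ N hN
  obtain ⟨A, hA⟩ : ∃ A, cnt {x | t x ≠ 0} N = A := ⟨_, rfl⟩
  have hcount : A ≤ ((Finset.range N).filter fun i => t i ≠ 0).card + 1 := by
    rw [← hA]
    unfold cnt
    have h1 : (Finset.range (N + 1)) = insert N (Finset.range N) := Finset.range_add_one
    calc _ ≤ (insert N ((Finset.range N).filter fun i => t i ≠ 0)).card := by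
          apply Finset.card_le_card
          intro x hx
          have hx' := (@Finset.mem_filter _ _ (_) _ _).1 hx
          rw [h1, Finset.mem_insert] at hx'
          rw [Finset.mem_insert, Finset.mem_filter]
          rcases hx'.1 with h2 | h2
          · exact Or.inl h2
          · exact Or.inr ⟨h2, hx'.2⟩
      _ ≤ _ := Finset.card_insert_le _ _
  have hcount' : (A : ℝ) - 1 ≤ ((Finset.range N).filter fun i => t i ≠ 0).card := by
    have : (A : ℝ) ≤ ((Finset.range N).filter fun i => t i ≠ 0).card + 1 := by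
      exact_mod_cast hcount
    linarith
  by_cases hA3 : (A : ℝ) + 2 ≤ Real.log N ^ 3
  swap
  · push Not at hA3
    linarith
  obtain ⟨a1, a2, a3⟩ := p13 A hA3
  obtain ⟨q, hqp, hq1, hqinj⟩ := exists_q p7 (hx₀ D₀ p1)
  have hfact : ∀ i, Fact (q i).Prime := fun i => ⟨hqp i⟩
  have hD1 : 1 ≤ D₀ := by omega
  have hqD : ∀ i < h, q i ≤ D₀ := fun i hi => (hq1 i hi).2.1
  -- bound for all multiples
  have hmul : ∀ μ ∈ mult q d.factorial h, ∀ j ≤ m, 1 ≤ μ ∧ μ * (y + 2 * G * j + G) + K ≤ N := by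
    intro μ hμ j hj
    obtain ⟨h1, h2⟩ := mult_le hqp hD1 hqD hμ
    refine ⟨h1, le_trans ?_ p9⟩
    apply Nat.add_le_add_right
    apply Nat.mul_le_mul h2
    have : 2 * G * j ≤ 2 * G * (m + 1) := Nat.mul_le_mul_left _ (by omega)
    omega
  have hcut : ∀ j ≤ m, ∃ Y : ℕ, y + 2 * G * j ≤ Y ∧ Y < y + 2 * G * j + G ∧
      ∀ μ ∈ mult q d.factorial h, GapS {x | t x ≠ 0} K (d * D₀) ((μ * Y : ℕ) : ℤ) := by
    intro j hj
    refine (hGAP {x | t x ≠ 0} N A (d * D₀) hA.le).2.2 K G (y + 2 * G * j)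
      (mult q d.factorial h) (fun μ hμ => hmul μ hμ j hj) (lt_of_le_of_lt ?_ a1)
    exact Nat.mul_le_mul_right _ (card_mult_le q d.factorial h)
  choose! Y hY1 hY2 hY3 using hcut
  have hstep : ∀ j < m, Y j < Y (j + 1) ∧ Y (j + 1) - Y j ≤ 3 * G := by
    intro j hj
    have h1 := hY1 j hj.le
    have h2 := hY2 j hj.le
    have h3 := hY1 (j + 1) hj
    have h4 := hY2 (j + 1) hj
    have h5 : 2 * G * (j + 1) = 2 * G * j + 2 * G := by ring
    omega
  have hlam : ∀ a ⊆ Finset.range h, lam q d.factorial a ≤ D₀ ^ (d.factorial * h) :=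
    fun a ha => lam_le hD1 hqD _ ha
  refine le_trans (a3 ?_) hcount'
  refine core hEXA hFRO hCUB hDSJ hC hPd hd hb hB ht hPβ p4 ?_ ?_ hqinj p2 p6 p8 hA ?_ ?_ ?_ ?_ ?_
    (G0 := G0) (m := m) (Y := Y)
  · intro i hi
    have := (hq1 i hi).1
    exact ⟨by omega, by omega, (hq1 i hi).2.1, (hq1 i hi).2.2⟩
  · intro i hi
    exact hl₁ (q i) (hqp i) (by have := (hq1 i hi).1; omega)
  · intro a ha
    refine le_trans (Nat.mul_le_mul (hlam a ha) ?_) p12
    have := hY2 0 (Nat.zero_le _)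
    omega
  · exact fun j hj => (hstep j hj).1
  · intro a ha j hj
    have h1 : lam q d.factorial a * (Y (j + 1) - Y j) ≤ D₀ ^ (d.factorial * h) * (3 * G) :=
      Nat.mul_le_mul (hlam a ha) (hstep j hj).2
    refine ⟨h1.trans p11, h1.trans (p10.trans ?_)⟩
    have := hY1 j hj.le
    omega
  · intro μ hμ j hj
    refine ⟨hY3 j hj μ hμ, ?_⟩
    have h1 := (hmul μ hμ j hj).2
    have h2 : μ * Y j ≤ μ * (y + 2 * G * j + G) := Nat.mul_le_mul_left _ (hY2 j hj).le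
    omega
  · exact a2.trans (hY1 m le_rfl)

end AsmM

theorem specTHR (hBLK : SpecBLK) (hGAP : SpecGAP) (hEXA : SpecEXA) (hFRO : SpecFRO)
    (hCUB : SpecCUB) (hDSJ : SpecDSJ) (hSPL : SpecSPL) (hPAR : SpecPAR) (hRLS : SpecRLS) :
    SpecTHR := by
  intro b t B hb ht halg hirr δ hδ
  have ht' : ∀ n, |t n| ≤ ((B + 1 : ℕ) : ℤ) := fun n => (ht n).trans (by push_cast; omega)
  obtain ⟨N₀, hN₀⟩ := AsmM.thr1 hBLK hGAP hEXA hFRO hCUB hDSJ hSPL hPAR hRLS b t (B + 1) hb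
    (by omega) ht' halg hirr (min δ 1) (lt_min hδ one_pos) (min_le_right _ _)
  refine ⟨max N₀ 3, fun N hN => le_trans ?_ (hN₀ N (le_trans (le_max_left _ _) hN))⟩
  have hN3 : (3 : ℝ) ≤ N := by exact_mod_cast le_trans (le_max_right _ _) hN
  have hlog : 1 ≤ Real.log N := by
    rw [Real.le_log_iff_exp_le (by linarith)]
    linarith [Real.exp_one_lt_d9]
  exact Real.rpow_le_rpow_of_exponent_le hlog (by linarith [min_le_left δ 1])

end Pool.Agent.Lib.MP5b6025.DD
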