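import Pool.Agent.Lib.MP_5b6025_nt.DD.Defs

/-!
# Basic lemmas: sums and gaps, truncated values
-/

set_option autoImplicit false

open Polynomial

namespace Pool.Agent.Lib.MP5b6025.DD
namespace Basic

/-! ## Sums of elements of a set -/

theorem isSumS_mono {S : Set ℕ} {m m' v : ℕ} (h : IsSumS S m v) (hm : m ≤ m') :
    IsSumS S m' v := by
  obtain ⟨ν, h1, h2, h3⟩ := h
  exact ⟨ν, h1.trans hm, h2, h3⟩

theorem isSumS_set {S S' : Set ℕ} {m v : ℕ} (h : IsSumS S m v) (hS : S ⊆ S') :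
    IsSumS S' m v := by
  obtain ⟨ν, h1, h2, h3⟩ := h
  exact ⟨ν, h1, fun x hx => hS (h2 x hx), h3⟩

theorem isSumS_zero (S : Set ℕ) (m : ℕ) : IsSumS S m 0 :=
  ⟨0, by simp, by simp, by simp⟩

theorem isSumS_one {S : Set ℕ} {m x : ℕ} (hx : x ∈ S) (hm : 1 ≤ m) : IsSumS S m x :=
  ⟨{x}, by simpa using hm, by simpa using hx, by simp⟩

theorem isSumS_add {S : Set ℕ} {m m' v v' : ℕ} (h : IsSumS S m v) (h' : IsSumS S m' v') :
    IsSumS S (m + m') (v + v') := by
  obtain ⟨ν, h1, h2, h3⟩ := h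
  obtain ⟨ν', h1', h2', h3'⟩ := h'
  refine ⟨ν + ν', ?_, ?_, ?_⟩
  · rw [Multiset.card_add]; omega
  · intro x hx
    rcases Multiset.mem_add.1 hx with hx | hx
    · exact h2 x hx
    · exact h2' x hx
  · rw [Multiset.sum_add, h3, h3']

theorem isSumS_le {S : Set ℕ} {m v : ℕ} (h : IsSumS S m v) :
    ∃ ν : Multiset ℕ, ν.card ≤ m ∧ (∀ x ∈ ν, x ∈ S ∧ x ≤ v) ∧ ν.sum = v := by
  obtain ⟨ν, h1, h2, h3⟩ := h
  exact ⟨ν, h1, fun x hx => ⟨h2 x hx, h3 ▸ Multiset.single_le_sum (fun _ _ => Nat.zero_le _) x hx⟩,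
    h3⟩

/-! ## Gaps -/

theorem gapS_mono {S : Set ℕ} {K m m' : ℕ} {X : ℤ} (h : GapS S K m' X) (hm : m ≤ m') :
    GapS S K m X := fun v hv => h v (isSumS_mono hv hm)

theorem gapS_K {S : Set ℕ} {K K' m : ℕ} {X : ℤ} (h : GapS S K' m X) (hK : K ≤ K') :
    GapS S K m X := fun v hv => by
  rcases h v hv with h1 | h1
  · exact Or.inl h1
  · right; omega

theorem gapS_set {S S' : Set ℕ} {K m : ℕ} {X : ℤ} (h : GapS S' K m X) (hS : S ⊆ S') :
    GapS S K m X := fun v hv => h v (isSumS_set hv hS)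

/-- TRANSFER. -/
theorem gapS_sub {S : Set ℕ} {K m m' v : ℕ} {X : ℤ} (h : GapS S K (m + m') X)
    (hv : IsSumS S m' v) : GapS S K m (X - v) := by
  intro u hu
  have h1 := h (u + v) (isSumS_add hu hv)
  push_cast at h1
  rcases h1 with h1 | h1
  · left; linarith
  · right; linarith

/-- A shorter gap inside a gap. -/
theorem gapS_shift {S : Set ℕ} {K K' m : ℕ} {X X' : ℤ} (h : GapS S K m X) (h1 : X ≤ X')
    (h2 : X' + K' ≤ X + K) : GapS S K' m X' := fun v hv => by
  rcases h v hv with h3 | h3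
  · left; omega
  · right; omega

theorem gap_iff {t : ℕ → ℤ} {K m : ℕ} {X : ℤ} :
    DC.Gap t K m X ↔ GapS {x | t x ≠ 0} K m X := Iff.rfl

/-! ## Counting -/

theorem cnt_mono {S S' : Set ℕ} (h : S ⊆ S') (W : ℕ) : cnt S W ≤ cnt S' W := by
  classical
  unfold cnt
  apply Finset.card_le_card
  intro x hx
  rw [Finset.mem_filter] at hx ⊢
  exact ⟨hx.1, h hx.2⟩

theorem cnt_le {S : Set ℕ} {W W' : ℕ} (h : W ≤ W') : cnt S W ≤ cnt S W' := by
  classical
  unfold cnt
  apply Finset.card_le_card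
  intro x hx
  rw [Finset.mem_filter, Finset.mem_range] at hx ⊢
  exact ⟨by omega, hx.2⟩

theorem card_le_cnt {S : Set ℕ} {W : ℕ} (V : Finset ℕ) (h : ∀ x ∈ V, x ∈ S ∧ x ≤ W) :
    V.card ≤ cnt S W := by
  classical
  unfold cnt
  apply Finset.card_le_card
  intro x hx
  rw [Finset.mem_filter, Finset.mem_range]
  exact ⟨by have := (h x hx).2; omega, (h x hx).1⟩

/-! ## Truncated values of power series -/

section

variable {k : Type} [Field k]

/-- Sum of the coefficients with index `< X`. -/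
noncomputable def tau (X : ℤ) (f : PowerSeries k) : k :=
  ∑ v ∈ Finset.range X.toNat, PowerSeries.coeff v f

theorem TT_eq (t : ℕ → k) (Q : k[X]) (X : ℤ) : TT t Q X = tau X (aeval (PowerSeries.mk t) Q) := rfl

theorem tau_nonpos (f : PowerSeries k) {X : ℤ} (hX : X ≤ 0) : tau X f = 0 := by
  unfold tau
  rw [Int.toNat_of_nonpos hX]
  simp

theorem tau_zero (X : ℤ) : tau X (0 : PowerSeries k) = 0 := by simp [tau]

theorem tau_add (X : ℤ) (f g : PowerSeries k) : tau X (f + g) = tau X f + tau X g := by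
  simp [tau, Finset.sum_add_distrib]

theorem tau_sub (X : ℤ) (f g : PowerSeries k) : tau X (f - g) = tau X f - tau X g := by
  simp [tau, Finset.sum_sub_distrib]

theorem tau_smul (X : ℤ) (c : k) (f : PowerSeries k) : tau X (c • f) = c * tau X f := by
  simp [tau, Finset.mul_sum]

theorem tau_sum (X : ℤ) {ι : Type*} (S : Finset ι) (f : ι → PowerSeries k) :
    tau X (∑ i ∈ S, f i) = ∑ i ∈ S, tau X (f i) := by
  simp only [tau]
  rw [Finset.sum_comm]
  apply Finset.sum_congr rfl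
  intro v _
  rw [map_sum]

theorem tau_one {X : ℤ} (hX : 1 ≤ X) : tau X (1 : PowerSeries k) = 1 := by
  unfold tau
  rw [Finset.sum_eq_single 0]
  · simp
  · intro v _ hv
    rw [PowerSeries.coeff_one, if_neg hv]
  · intro h
    rw [Finset.mem_range] at h
    omega

/-- As a sum over a longer range. -/
theorem tau_eq_sum (X : ℤ) (f : PowerSeries k) {N : ℕ} (u : ℕ) (hN : X - u ≤ N) :
    tau (X - u) f = ∑ w ∈ Finset.range N,
      if (u : ℤ) + w < X then PowerSeries.coeff w f else 0 := by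
  rw [tau, ← Finset.sum_filter]
  apply Finset.sum_congr _ (fun _ _ => rfl)
  ext w
  simp only [Finset.mem_range, Finset.mem_filter]
  constructor
  · intro h
    have : (w : ℤ) < X - u := by omega
    constructor
    · omega
    · omega
  · rintro ⟨h1, h2⟩
    omega

/-- Convolution formula. -/
theorem tau_mul (X : ℤ) (f h : PowerSeries k) {N : ℕ} (hN : X ≤ N) :
    tau X (f * h) = ∑ u ∈ Finset.range N, PowerSeries.coeff u f * tau (X - u) h := by
  have h0 : tau X (f * h) = ∑ v ∈ Finset.range N,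
      if (v : ℤ) < X then PowerSeries.coeff v (f * h) else 0 := by
    have := tau_eq_sum X (f * h) 0 (N := N) (by push_cast; omega)
    simpa using this
  rw [h0]
  have h1 : ∀ u ∈ Finset.range N, PowerSeries.coeff u f *
      tau (X - u) h = ∑ w ∈ Finset.range N, if (u : ℤ) + w < X then
        PowerSeries.coeff u f * PowerSeries.coeff w h else 0 := by
    intro u _
    rw [tau_eq_sum X h u (N := N) (by omega), Finset.mul_sum]
    apply Finset.sum_congr rfl
    intro w _
    rw [mul_ite, mul_zero]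
  rw [Finset.sum_congr rfl h1]
  have h2 : ∀ v ∈ Finset.range N,
      (if (v : ℤ) < X then PowerSeries.coeff v (f * h) else 0) =
      ∑ q ∈ Finset.HasAntidiagonal.antidiagonal v, if (v : ℤ) < X then
        PowerSeries.coeff q.1 f * PowerSeries.coeff q.2 h else 0 := by
    intro v _
    by_cases hv : (v : ℤ) < X
    · simp only [hv, if_true]
      rw [PowerSeries.coeff_mul]
    · simp [hv]
  rw [Finset.sum_congr rfl h2, Finset.sum_sigma', ← Finset.sum_product']
  refine Finset.sum_bij_ne_zero (fun a _ _ => a.2) ?_ ?_ ?_ ?_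
  · rintro ⟨v, q⟩ ha hne
    simp only [Finset.mem_sigma, Finset.mem_range, Finset.HasAntidiagonal.mem_antidiagonal] at ha
    simp only [Finset.mem_product, Finset.mem_range]
    omega
  · rintro ⟨v, q⟩ ha hne ⟨v', q'⟩ ha' hne' h
    simp only [Finset.mem_sigma, Finset.mem_range, Finset.HasAntidiagonal.mem_antidiagonal]
      at ha ha'
    simp only at h
    subst h
    obtain rfl : v = v' := by rw [← ha.2, ← ha'.2]
    rfl
  · rintro ⟨u, w⟩ ha hne
    by_cases hc : (u : ℤ) + w < X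
    · refine ⟨⟨u + w, (u, w)⟩, ?_, ?_, rfl⟩
      · simp only [Finset.mem_sigma, Finset.mem_range, Finset.HasAntidiagonal.mem_antidiagonal,
          and_true]
        omega
      · simp only [hc, if_true] at hne
        simp only [Nat.cast_add, hc, if_true]
        exact hne
    · simp [hc] at hne
  · rintro ⟨v, q⟩ ha hne
    simp only [Finset.mem_sigma, Finset.mem_range, Finset.HasAntidiagonal.mem_antidiagonal] at ha
    have : (v : ℤ) = q.1 + q.2 := by rw [← ha.2]; push_cast; ring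
    simp only [this]

/-- Two truncations are equal if no coefficient in between is nonzero. -/
theorem tau_congr {f : PowerSeries k} {X X' : ℤ}
    (h : ∀ w : ℕ, min X X' ≤ w → (w : ℤ) < max X X' → PowerSeries.coeff w f = 0) :
    tau X f = tau X' f := by
  have key : ∀ Y Y' : ℤ, Y ≤ Y' → (∀ w : ℕ, Y ≤ w → (w : ℤ) < Y' → PowerSeries.coeff w f = 0) →
      tau Y f = tau Y' f := by
    intro Y Y' hY h
    unfold tau
    apply Finset.sum_subset
    · intro w hw
      rw [Finset.mem_range] at hw ⊢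
      omega
    · intro w hw hw'
      rw [Finset.mem_range] at hw hw'
      exact h w (by omega) (by omega)
  rcases le_total X X' with h1 | h1
  · exact key X X' h1 fun w hw hw' => h w (by rwa [min_eq_left h1]) (by rwa [max_eq_right h1])
  · exact (key X' X h1 fun w hw hw' => h w (by rwa [min_eq_right h1])
      (by rwa [max_eq_left h1])).symm

/-! ### Truncated values of polynomials in `F` -/

theorem TT_nonpos (t : ℕ → k) (Q : k[X]) {X : ℤ} (hX : X ≤ 0) : TT t Q X = 0 :=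
  tau_nonpos _ hX

theorem TT_zero (t : ℕ → k) (X : ℤ) : TT t 0 X = 0 := by
  rw [TT_eq, map_zero, tau_zero]

theorem TT_add (t : ℕ → k) (Q R : k[X]) (X : ℤ) : TT t (Q + R) X = TT t Q X + TT t R X := by
  rw [TT_eq, map_add, tau_add]; rfl

theorem TT_sub (t : ℕ → k) (Q R : k[X]) (X : ℤ) : TT t (Q - R) X = TT t Q X - TT t R X := by
  rw [TT_eq, map_sub, tau_sub]; rfl

theorem TT_smul (t : ℕ → k) (c : k) (Q : k[X]) (X : ℤ) : TT t (c • Q) X = c * TT t Q X := by
  rw [TT_eq, map_smul, tau_smul]; rfl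

theorem TT_C_mul (t : ℕ → k) (c : k) (Q : k[X]) (X : ℤ) : TT t (C c * Q) X = c * TT t Q X := by
  rw [← smul_eq_C_mul, TT_smul]

theorem TT_sum (t : ℕ → k) {ι : Type*} (S : Finset ι) (Q : ι → k[X]) (X : ℤ) :
    TT t (∑ i ∈ S, Q i) X = ∑ i ∈ S, TT t (Q i) X := by
  rw [TT_eq, map_sum, tau_sum]; rfl

/-- The linear map `Q ↦ T(Q, X)`. -/
noncomputable def TTl (t : ℕ → k) (X : ℤ) : k[X] →ₗ[k] k where
  toFun Q := TT t Q X
  map_add' Q R := TT_add t Q R X
  map_smul' c Q := TT_smul t c Q X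

@[simp] theorem TTl_apply (t : ℕ → k) (X : ℤ) (Q : k[X]) : TTl t X Q = TT t Q X := rfl

theorem TT_one (t : ℕ → k) {X : ℤ} (hX : 1 ≤ X) : TT t 1 X = 1 := by
  rw [TT_eq, map_one, tau_one hX]

theorem TT_C (t : ℕ → k) (c : k) {X : ℤ} (hX : 1 ≤ X) : TT t (C c) X = c := by
  have := TT_C_mul t c 1 X
  rwa [mul_one, TT_one t hX, mul_one] at this

theorem TT_X (t : ℕ → k) (X : ℤ) :
    TT t (Polynomial.X : k[X]) X = ∑ v ∈ Finset.range X.toNat, t v := by
  unfold TT
  rw [aeval_X]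
  exact Finset.sum_congr rfl fun v _ => PowerSeries.coeff_mk _ _

/-- `T(Q, X)` in terms of the powers. -/
theorem TT_eq_sum (t : ℕ → k) (Q : k[X]) (X : ℤ) {N : ℕ} (hN : Q.natDegree < N) :
    TT t Q X = ∑ j ∈ Finset.range N, Q.coeff j * TT t ((Polynomial.X : k[X]) ^ j) X := by
  conv_lhs => rw [Q.as_sum_range' N hN]
  rw [TT_sum]
  refine Finset.sum_congr rfl fun j _ => ?_
  rw [← C_mul_X_pow_eq_monomial, TT_C_mul]

/-! ### Supports -/

/-- The support of a power consists of sums of exactly `j` elements. -/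
theorem sum_of_coeff_pow (p : ℕ → Prop) (f : PowerSeries k)
    (hf : ∀ x, PowerSeries.coeff x f ≠ 0 → p x) (j : ℕ) : ∀ v : ℕ,
    PowerSeries.coeff v (f ^ j) ≠ 0 →
    ∃ ν : Multiset ℕ, ν.card = j ∧ (∀ x ∈ ν, p x) ∧ ν.sum = v := by
  induction j with
  | zero =>
    intro v hv
    rw [pow_zero, PowerSeries.coeff_one] at hv
    refine ⟨0, by simp, by simp, ?_⟩
    by_contra h
    apply hv
    rw [if_neg]
    intro h'
    exact h (by simp [h'])
  | succ j ih =>
    intro v hv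
    rw [pow_succ, PowerSeries.coeff_mul] at hv
    obtain ⟨⟨a, c⟩, hac, hne⟩ := Finset.exists_ne_zero_of_sum_ne_zero hv
    rw [Finset.HasAntidiagonal.mem_antidiagonal] at hac
    simp only at hac hne
    obtain ⟨ν, h1, h2, h3⟩ := ih a (left_ne_zero_of_mul hne)
    refine ⟨c ::ₘ ν, by rw [Multiset.card_cons, h1], ?_, by rw [Multiset.sum_cons, h3]; omega⟩
    intro x hx
    rcases Multiset.mem_cons.1 hx with rfl | hx
    · exact hf x (right_ne_zero_of_mul hne)
    · exact h2 x hx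

/-- Coefficients of the value of a polynomial at a series. -/
theorem coeff_aeval (f : PowerSeries k) (H : k[X]) (v : ℕ) :
    PowerSeries.coeff v (aeval f H) =
      ∑ j ∈ Finset.range (H.natDegree + 1), H.coeff j * PowerSeries.coeff v (f ^ j) := by
  rw [aeval_eq_sum_range, map_sum]
  apply Finset.sum_congr rfl
  intro j _
  rw [map_smul, smul_eq_mul]

/-- The support of `Q (f)`. -/
theorem sum_of_coeff_aeval (p : ℕ → Prop) (f : PowerSeries k)
    (hf : ∀ x, PowerSeries.coeff x f ≠ 0 → p x) (H : k[X]) {v : ℕ}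
    (hv : PowerSeries.coeff v (aeval f H) ≠ 0) :
    ∃ ν : Multiset ℕ, ν.card ≤ H.natDegree ∧ (∀ x ∈ ν, p x) ∧ ν.sum = v := by
  rw [coeff_aeval] at hv
  obtain ⟨j, hj, hj0⟩ := Finset.exists_ne_zero_of_sum_ne_zero hv
  obtain ⟨ν, h1, h2, h3⟩ := sum_of_coeff_pow p f hf j v (right_ne_zero_of_mul hj0)
  rw [Finset.mem_range] at hj
  exact ⟨ν, by omega, h2, h3⟩

/-- The support of `Q (F)`. -/
theorem isSumS_of_coeff (t : ℕ → k) (Q : k[X]) {v m : ℕ} (hm : Q.natDegree ≤ m)
    (hv : PowerSeries.coeff v (aeval (PowerSeries.mk t) Q) ≠ 0) : IsSumS (supp t) m v := by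
  obtain ⟨ν, h1, h2, h3⟩ := sum_of_coeff_aeval (fun x => x ∈ supp t) (PowerSeries.mk t)
    (fun x hx => by rwa [PowerSeries.coeff_mk] at hx) Q hv
  exact ⟨ν, h1.trans hm, h2, h3⟩

/-- `T(Q, ·)` is constant where there are no sums of at most `deg Q` elements. -/
theorem TT_congr_X (t : ℕ → k) (Q : k[X]) {m : ℕ} (hm : Q.natDegree ≤ m) {X X' : ℤ}
    (h : ∀ w : ℕ, IsSumS (supp t) m w → ¬ (min X X' ≤ w ∧ (w : ℤ) < max X X')) :
    TT t Q X = TT t Q X' := by
  apply tau_congr
  intro w h1 h2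
  by_contra hne
  exact h w (isSumS_of_coeff t Q hm hne) ⟨h1, h2⟩

/-- Inside a gap `T(Q, ·)` is constant. -/
theorem TT_gap (t : ℕ → k) (Q : k[X]) {K m : ℕ} (hm : Q.natDegree ≤ m) {X X' : ℤ}
    (h : GapS (supp t) K m X) (h1 : X ≤ X') (h2 : X' ≤ X + K) : TT t Q X = TT t Q X' := by
  apply TT_congr_X t Q hm
  rintro w hw ⟨h3, h4⟩
  rw [min_eq_left h1] at h3
  rw [max_eq_right h1] at h4
  rcases h w hw with h5 | h5 <;> omega

/-- Series that agree at the indices `< X`. -/
theorem coeff_aeval_congr {f g : PowerSeries k} {Y : ℕ}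
    (h : ∀ n < Y, PowerSeries.coeff n f = PowerSeries.coeff n g) (H : k[X]) {v : ℕ}
    (hv : v < Y) : PowerSeries.coeff v (aeval f H) = PowerSeries.coeff v (aeval g H) := by
  have h1 : f - g ∣ aeval f H - aeval g H := by
    have := Polynomial.sub_dvd_eval_sub f g (H.map (algebraMap k (PowerSeries k)))
    rwa [← eval₂_eq_eval_map, ← eval₂_eq_eval_map, ← aeval_def, ← aeval_def] at this
  have h2 : (PowerSeries.X : PowerSeries k) ^ Y ∣ f - g := by
    rw [PowerSeries.X_pow_dvd_iff]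
    intro m hm
    rw [map_sub, h m hm, sub_self]
  have h3 := PowerSeries.X_pow_dvd_iff.1 (h2.trans h1) v hv
  rwa [map_sub, sub_eq_zero] at h3

theorem TT_congr_t {t t' : ℕ → k} (Q : k[X]) {X : ℤ} (h : ∀ n : ℕ, (n : ℤ) < X → t n = t' n) :
    TT t Q X = TT t' Q X := by
  unfold TT
  refine Finset.sum_congr rfl fun v hv => ?_
  rw [Finset.mem_range] at hv
  refine coeff_aeval_congr (Y := X.toNat) (fun n hn => ?_) Q hv
  rw [PowerSeries.coeff_mk, PowerSeries.coeff_mk]
  exact h n (by omega)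

/-- Convolution formula for `T`. -/
theorem TT_mul (t : ℕ → k) (Q R : k[X]) (X : ℤ) {N : ℕ} (hN : X ≤ N) :
    TT t (Q * R) X = ∑ v ∈ Finset.range N,
      PowerSeries.coeff v (aeval (PowerSeries.mk t) Q) * TT t R (X - v) := by
  rw [TT_eq, map_mul, tau_mul X _ _ hN]
  rfl

/-- Convolution formula for the powers (one factor `F`). -/
theorem TT_pow_succ (t : ℕ → k) (j : ℕ) (X : ℤ) {N : ℕ} (hN : X ≤ N) :
    TT t ((Polynomial.X : k[X]) ^ (j + 1)) X = ∑ v ∈ Finset.range N,
      t v * TT t ((Polynomial.X : k[X]) ^ j) (X - v) := by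
  rw [pow_succ', TT_mul t _ _ X hN]
  refine Finset.sum_congr rfl fun v _ => ?_
  rw [aeval_X, PowerSeries.coeff_mk]

/-- Convolution formula for the powers (`F^j` first). -/
theorem TT_pow_succ' (t : ℕ → k) (j : ℕ) (X : ℤ) {N : ℕ} (hN : X ≤ N) :
    TT t ((Polynomial.X : k[X]) ^ (j + 1)) X = ∑ w ∈ Finset.range N,
      PowerSeries.coeff w ((PowerSeries.mk t) ^ j) * TT t (Polynomial.X : k[X]) (X - w) := by
  rw [pow_succ, TT_mul t _ _ X hN]
  refine Finset.sum_congr rfl fun v _ => ?_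
  rw [map_pow, aeval_X]

/-! ### Taylor's formula -/

theorem hasseDeriv_map' {A : Type*} [CommRing A] [Algebra k A] (r : ℕ) (Q : k[X]) :
    hasseDeriv r (Q.map (algebraMap k A)) = (hasseDeriv r Q).map (algebraMap k A) := by
  ext i
  rw [hasseDeriv_coeff, coeff_map, coeff_map, hasseDeriv_coeff, map_mul]
  simp

theorem aeval_add_eq {A : Type*} [CommRing A] [Algebra k A] (Q : k[X]) {D : ℕ}
    (hQ : Q.natDegree ≤ D) (x y : A) :
    aeval (x + y) Q = ∑ r ∈ Finset.range (D + 1), aeval x (hasseDeriv r Q) * y ^ r := by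
  have h1 : ∀ (z : A) (P : k[X]), aeval z P = (P.map (algebraMap k A)).eval z := fun z P => by
    rw [aeval_def, eval₂_eq_eval_map]
  rw [h1, add_comm x y, ← taylor_eval, eval_eq_sum_range' (n := D + 1)]
  · apply Finset.sum_congr rfl
    intro r _
    rw [taylor_coeff, hasseDeriv_map', h1]
  · rw [natDegree_taylor]
    exact Nat.lt_succ_of_le ((natDegree_map_le).trans hQ)

theorem natDegree_hasseDeriv_le' (r : ℕ) (Q : k[X]) {D : ℕ} (hQ : Q.natDegree ≤ D) :
    (hasseDeriv r Q).natDegree + r ≤ D ∨ hasseDeriv r Q = 0 := by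
  by_cases h : Q.natDegree < r
  · right
    exact hasseDeriv_eq_zero_of_lt_natDegree Q r h
  · left
    have := natDegree_hasseDeriv_le Q r
    omega

end

end Basic
end Pool.Agent.Lib.MP5b6025.DD
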