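import Pool.Agent.Lib.MP_5b6025_nt.DC.Spec

/-!
# Digit changes with exponent 3: definitions

Everything here is exact (no real numbers): a sequence `t` over a field `k`, the power series
`F = ∑ t_n z^n` over `k`, and the truncated values `T(Q, X) = ∑_{v < X} coeff_v (Q (F))`.
-/

set_option autoImplicit false

open Polynomial

namespace Pool.Agent.Lib.MP5b6025.DD

/-- `v` is a sum of at most `m` elements of `S`. (`DC.IsSum t m v` is, by definition,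
`IsSumS {x | t x ≠ 0} m v`.) -/
def IsSumS (S : Set ℕ) (m v : ℕ) : Prop :=
  ∃ ν : Multiset ℕ, ν.card ≤ m ∧ (∀ x ∈ ν, x ∈ S) ∧ ν.sum = v

/-- `[X, X + K)` contains no sum of at most `m` elements of `S`. (`DC.Gap t K m X` is, by
definition, `GapS {x | t x ≠ 0} K m X`.) -/
def GapS (S : Set ℕ) (K m : ℕ) (X : ℤ) : Prop :=
  ∀ v : ℕ, IsSumS S m v → (v : ℤ) < X ∨ X + K ≤ v

open Classical in
/-- The number of elements `≤ W` of `S`. -/
noncomputable def cnt (S : Set ℕ) (W : ℕ) : ℕ := ((Finset.range (W + 1)).filter (· ∈ S)).card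

/-- The support of a sequence. -/
def supp {k : Type} [Zero k] (t : ℕ → k) : Set ℕ := {x | t x ≠ 0}

/-- Truncated value of `Q (F)`, `F = ∑ t_n z^n`. -/
noncomputable def TT {k : Type} [Field k] (t : ℕ → k) (Q : k[X]) (X : ℤ) : k :=
  ∑ v ∈ Finset.range X.toNat, PowerSeries.coeff v (aeval (PowerSeries.mk t) Q)

/-- The polynomials `𝒟_1 ⋯ 𝒟_k Q`, `𝒟 = ∑_{1 ≤ r ≤ D} θ_r Q^{[r]}` (Hasse derivatives). -/
noncomputable def Jp {k : Type} [Field k] (D : ℕ) : List (ℕ → k) → k[X] → k[X]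
  | [], Q => Q
  | θ :: l, Q => ∑ r ∈ Finset.Icc 1 D, θ r • Jp D l (hasseDeriv r Q)

/-- Two sums of at most `D` elements of `V` differ by a number in `[lo, hi]`. -/
def Att (V : Set ℕ) (D lo hi : ℕ) : Prop :=
  ∃ ν ν' : Multiset ℕ, ν.card ≤ D ∧ ν'.card ≤ D ∧ (∀ x ∈ ν, x ∈ V) ∧ (∀ x ∈ ν', x ∈ V) ∧
    ν.sum + lo ≤ ν'.sum ∧ ν'.sum ≤ ν.sum + hi

/-- A label: `s` is the smallest element of the first cluster (at resolution `κ`) where the
truncated values jump; `m r c` is the coefficient of `z^(s+c)` in `E^r`, `E` = part of `F` with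
the indices `> ρ`. The next clusters are at distance `> hi`. -/
structure Lab {k : Type} [Field k] (t : ℕ → k) (D κ hi ρ g s : ℕ) (m : ℕ → ℕ → k) : Prop where
  mem : ∃ ν : Multiset ℕ, ν.card ≤ D ∧ (∀ x ∈ ν, ρ < x ∧ t x ≠ 0) ∧ ν.sum = s
  sup : ∀ r c, 1 ≤ r → r ≤ D → m r c ≠ 0 →
    ∃ ν : Multiset ℕ, ν.card = r ∧ (∀ x ∈ ν, ρ < x ∧ t x ≠ 0) ∧ ν.sum = s + c
  lf : ∃ κ₀ : k[X] → k, ∀ Q : k[X], Q.natDegree ≤ D → ∀ X : ℤ, GapS (supp t) κ D X →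
    (g : ℤ) ≤ X + ρ → X ≤ s + ρ →
    TT t Q X = κ₀ Q + ∑ r ∈ Finset.Icc 1 D, ∑ c ∈ Finset.range ρ,
      m r c * TT t (hasseDeriv r Q) (X - s - c)
  big : ∃ r ∈ Finset.Icc 1 D, ∑ c ∈ Finset.range κ, m r c ≠ 0
  iso : ∀ r c, 1 ≤ r → r ≤ D → c < ρ → m r c ≠ 0 → c < κ ∨ hi < c

/-- Reduction modulo `l` of the sequence `t_n b^(-n)`. -/
noncomputable def red (l b : ℕ) (t : ℕ → ℤ) : ℕ → ZMod l :=
  fun n => (t n : ZMod l) * ((b : ZMod l)⁻¹) ^ n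

/-- The product of the `f`-th powers of the numbers `q i`, `i ∈ a`. -/
def lam (q : ℕ → ℕ) (f : ℕ) (a : Finset ℕ) : ℕ := ∏ i ∈ a, q i ^ f

/-- The number of roots of `g` modulo `l`. -/
def nr (g : ℤ[X]) (l : ℕ) : ℕ :=
  ((Finset.range l).filter fun r : ℕ => (l : ℤ) ∣ g.eval (r : ℤ)).card

end Pool.Agent.Lib.MP5b6025.DD
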