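import Pool.Agent.Lib.MP_5b6025_nt.DC.Tapp
import Pool.Agent.Lib.MP_5b6025_nt.DD.Spec

/-!
# Module EXA: exactness modulo `l`
-/

set_option autoImplicit false

open Polynomial

namespace Pool.Agent.Lib.MP5b6025.DD

namespace EXAM

/-- `l1` as a sum over a range. -/
theorem l1_eq (Q : ℤ[X]) (N : ℕ) (h : Q.natDegree < N) :
    DC.l1 Q = ∑ i ∈ Finset.range N, |(Q.coeff i : ℝ)| := by
  rw [DC.l1]
  refine Finset.sum_subset ?_ ?_
  · intro i hi
    rw [Finset.mem_range]
    exact (le_natDegree_of_mem_supp i hi).trans_lt h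
  · intro i _ hi
    rw [notMem_support_iff.mp hi]
    simp

theorem l1_nonneg (Q : ℤ[X]) : 0 ≤ DC.l1 Q := Finset.sum_nonneg fun _ _ => abs_nonneg _

/-- Polynomial with the absolute values of the coefficients. -/
noncomputable def ab (Q : ℤ[X]) : ℝ[X] :=
  ∑ i ∈ Finset.range (Q.natDegree + 1), C |(Q.coeff i : ℝ)| * X ^ i

theorem coeff_ab (Q : ℤ[X]) (n : ℕ) : (ab Q).coeff n = |(Q.coeff n : ℝ)| := by
  rw [ab, finsetSum_coeff]
  simp only [coeff_C_mul, coeff_X_pow, mul_ite, mul_one, mul_zero]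
  rw [Finset.sum_ite_eq]
  split_ifs with h
  · rfl
  · rw [Finset.mem_range, not_lt] at h
    rw [coeff_eq_zero_of_natDegree_lt (by omega)]
    simp

theorem natDegree_ab (Q : ℤ[X]) : (ab Q).natDegree ≤ Q.natDegree := by
  rw [natDegree_le_iff_coeff_eq_zero]
  intro n hn
  rw [coeff_ab, coeff_eq_zero_of_natDegree_lt hn]
  simp

theorem eval_ab (Q : ℤ[X]) : (ab Q).eval 1 = DC.l1 Q := by
  rw [eval_eq_sum_range' (n := Q.natDegree + 1) (by have := natDegree_ab Q; omega),
    l1_eq Q (Q.natDegree + 1) (by omega)]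
  refine Finset.sum_congr rfl fun i _ => ?_
  rw [coeff_ab]
  simp

theorem l1_mul (P Q : ℤ[X]) : DC.l1 (P * Q) ≤ DC.l1 P * DC.l1 Q := by
  have h1 : DC.l1 P * DC.l1 Q = (ab P * ab Q).eval 1 := by
    rw [eval_mul, eval_ab, eval_ab]
  have hd : (ab P * ab Q).natDegree < P.natDegree + Q.natDegree + 1 := by
    have h2 := natDegree_mul_le (p := ab P) (q := ab Q)
    have h3 := natDegree_ab P
    have h4 := natDegree_ab Q
    omega
  rw [h1, eval_eq_sum_range' hd,
    l1_eq (P * Q) (P.natDegree + Q.natDegree + 1)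
      (by have := natDegree_mul_le (p := P) (q := Q); omega)]
  refine Finset.sum_le_sum fun n _ => ?_
  rw [one_pow, mul_one, coeff_mul, coeff_mul]
  push_cast
  refine (Finset.abs_sum_le_sum_abs _ _).trans (le_of_eq ?_)
  refine Finset.sum_congr rfl fun x _ => ?_
  rw [abs_mul, coeff_ab, coeff_ab]

/-- The lift of a polynomial modulo `l`. -/
noncomputable def lift (l : ℕ) (G : (ZMod l)[X]) : ℤ[X] :=
  ∑ i ∈ Finset.range (G.natDegree + 1), C (((G.coeff i).val : ℕ) : ℤ) * X ^ i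

theorem coeff_lift (l : ℕ) [Fact l.Prime] (G : (ZMod l)[X]) (n : ℕ) :
    (lift l G).coeff n = (((G.coeff n).val : ℕ) : ℤ) := by
  rw [lift, finsetSum_coeff]
  simp only [coeff_C_mul, coeff_X_pow, mul_ite, mul_one, mul_zero]
  rw [Finset.sum_ite_eq]
  split_ifs with h
  · rfl
  · rw [Finset.mem_range, not_lt] at h
    rw [coeff_eq_zero_of_natDegree_lt (by omega)]
    simp

theorem natDegree_lift (l : ℕ) [Fact l.Prime] (G : (ZMod l)[X]) :
    (lift l G).natDegree ≤ G.natDegree := by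
  rw [natDegree_le_iff_coeff_eq_zero]
  intro n hn
  rw [coeff_lift, coeff_eq_zero_of_natDegree_lt hn]
  simp

theorem map_lift (l : ℕ) [Fact l.Prime] (G : (ZMod l)[X]) :
    (lift l G).map (Int.castRingHom (ZMod l)) = G := by
  ext n
  rw [coeff_map, coeff_lift]
  simp

theorem l1_lift (l : ℕ) [Fact l.Prime] (G : (ZMod l)[X]) (D : ℕ) (h : G.natDegree ≤ D) :
    DC.l1 (lift l G) ≤ l * (D + 1) := by
  rw [l1_eq (lift l G) (D + 1) (by have := natDegree_lift l G; omega)]
  have h1 : ∀ i ∈ Finset.range (D + 1), |((lift l G).coeff i : ℝ)| ≤ l := by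
    intro i _
    rw [coeff_lift]
    push_cast
    rw [abs_of_nonneg (by positivity)]
    exact_mod_cast (ZMod.val_lt (G.coeff i)).le
  refine (Finset.sum_le_sum h1).trans (le_of_eq ?_)
  rw [Finset.sum_const, Finset.card_range, nsmul_eq_mul]
  push_cast
  ring

/-- Reduction of power series: reduce the coefficients, `z ↦ z / b`. -/
noncomputable def psi (l b : ℕ) [Fact l.Prime] : PowerSeries ℤ →+* PowerSeries (ZMod l) :=
  (PowerSeries.rescale ((b : ZMod l)⁻¹)).comp (PowerSeries.map (Int.castRingHom (ZMod l)))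

theorem coeff_psi (l b : ℕ) [Fact l.Prime] (f : PowerSeries ℤ) (v : ℕ) :
    PowerSeries.coeff v (psi l b f) = ((PowerSeries.coeff v f : ℤ) : ZMod l) *
      ((b : ZMod l)⁻¹) ^ v := by
  rw [psi, RingHom.comp_apply, PowerSeries.coeff_rescale, PowerSeries.coeff_map]
  simp [mul_comm]

theorem psi_FF (l b : ℕ) [Fact l.Prime] (t : ℕ → ℤ) :
    psi l b (DC.FF t) = PowerSeries.mk (red l b t) := by
  ext v
  rw [coeff_psi, PowerSeries.coeff_mk, DC.FF, PowerSeries.coeff_mk, red]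

theorem psi_aeval (l b : ℕ) [Fact l.Prime] (t : ℕ → ℤ) (Q : ℤ[X]) :
    psi l b (aeval (DC.FF t) Q) =
      aeval (PowerSeries.mk (red l b t)) (Q.map (Int.castRingHom (ZMod l))) := by
  rw [aeval_def, hom_eval₂, aeval_def, eval₂_map, psi_FF]
  congr 1
  exact Subsingleton.elim _ _

end EXAM

open EXAM in
theorem specEXA : SpecEXA := by
  intro l b B D W K _ t P G X hb hB ht hlb hD hDW hP hdeg hlt hXW hgap
  have hb0 : (b : ZMod l) ≠ 0 := by
    intro h
    exact hlb ((ZMod.natCast_eq_zero_iff b l).mp h)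
  have hbR : (b : ℝ) ≠ 0 := by positivity
  set Q : ℤ[X] := P * lift l G with hQ
  have hQdeg : Q.natDegree ≤ D := by
    have h1 := natDegree_mul_le (p := P) (q := lift l G)
    have h2 := natDegree_lift l G
    rw [hQ]
    omega
  have hQ0 : aeval (DC.bet b t) Q = 0 := by
    rw [hQ, map_mul, hP, zero_mul]
  have hGG : 0 ≤ DC.GG B D W := by
    rw [DC.GG]
    positivity
  have hl1 : DC.l1 Q * DC.GG B D W < (b : ℝ) ^ K := by
    refine lt_of_le_of_lt ?_ hlt
    refine mul_le_mul_of_nonneg_right ?_ hGG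
    refine (l1_mul P (lift l G)).trans ?_
    exact mul_le_mul_of_nonneg_left (l1_lift l G D (by omega)) (l1_nonneg P)
  have hTT := (DC.specTAPP b t B D W K Q X hb hB ht hD hDW hQdeg hXW hgap).2 hQ0 hl1
  rw [DC.TT, DC.tau] at hTT
  -- integer form
  have hint : ∑ v ∈ Finset.range (X : ℤ).toNat,
      (PowerSeries.coeff v (aeval (DC.FF t) Q) : ℤ) * (b : ℤ) ^ (X - v) = 0 := by
    have h1 : ((∑ v ∈ Finset.range (X : ℤ).toNat,
        (PowerSeries.coeff v (aeval (DC.FF t) Q) : ℤ) * (b : ℤ) ^ (X - v) : ℤ) : ℝ) =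
        (b : ℝ) ^ X * ∑ v ∈ Finset.range (X : ℤ).toNat,
          ((PowerSeries.coeff v (aeval (DC.FF t) Q) : ℤ) : ℝ) / (b : ℝ) ^ v := by
      rw [Finset.mul_sum]
      push_cast
      refine Finset.sum_congr rfl fun v hv => ?_
      rw [Finset.mem_range, Int.toNat_natCast] at hv
      rw [pow_sub₀ _ hbR hv.le]
      field_simp
    rw [hTT, mul_zero] at h1
    exact_mod_cast h1
  have hmod : ∑ v ∈ Finset.range (X : ℤ).toNat,
      ((PowerSeries.coeff v (aeval (DC.FF t) Q) : ℤ) : ZMod l) * (b : ZMod l) ^ (X - v) = 0 := by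
    have h1 := congrArg (Int.cast : ℤ → ZMod l) hint
    push_cast at h1
    exact h1
  have hfin : ∑ v ∈ Finset.range (X : ℤ).toNat,
      ((PowerSeries.coeff v (aeval (DC.FF t) Q) : ℤ) : ZMod l) * ((b : ZMod l)⁻¹) ^ v = 0 := by
    have h1 : ((b : ZMod l)⁻¹) ^ X * ∑ v ∈ Finset.range (X : ℤ).toNat,
        ((PowerSeries.coeff v (aeval (DC.FF t) Q) : ℤ) : ZMod l) * (b : ZMod l) ^ (X - v) =
        ∑ v ∈ Finset.range (X : ℤ).toNat,
          ((PowerSeries.coeff v (aeval (DC.FF t) Q) : ℤ) : ZMod l) * ((b : ZMod l)⁻¹) ^ v := by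
      rw [Finset.mul_sum]
      refine Finset.sum_congr rfl fun v hv => ?_
      rw [Finset.mem_range, Int.toNat_natCast] at hv
      rw [pow_sub₀ _ hb0 hv.le, inv_pow, inv_pow]
      field_simp
    rw [← h1, hmod, mul_zero]
  have hmap : Q.map (Int.castRingHom (ZMod l)) = P.map (Int.castRingHom (ZMod l)) * G := by
    rw [hQ, Polynomial.map_mul, map_lift]
  rw [TT, ← hmap, ← psi_aeval, ← hfin]
  refine Finset.sum_congr rfl fun v _ => ?_
  rw [coeff_psi]

end Pool.Agent.Lib.MP5b6025.DD
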