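import Pool.Agent.Lib.MP_5b6025_nt.DC.Dig
import Pool.Agent.Lib.MP_5b6025_nt.DD.Spec

/-!
# Module FIN: linear relations between consecutive digits, digit changes
-/

set_option autoImplicit false

open Polynomial

namespace Pool.Agent.Lib.MP5b6025.DD

namespace FINM

open DC

/-- The shifted expansion. -/
theorem hasSum_shift (b : ℕ) (x : ℝ) (hb : 2 ≤ b) (j : ℕ) :
    HasSum (fun n => (digit b x (n + j) : ℝ) / (b : ℝ) ^ n)
      ((b : ℝ) ^ (j + 1) * x - b * ⌊x * (b : ℝ) ^ j⌋) := by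
  have hb0 : (b : ℝ) ≠ 0 := by positivity
  have h1 := DigM.hasSum b x hb
  have h2 : HasSum (fun n => (digit b x (n + j) : ℝ) / (b : ℝ) ^ (n + j))
      (b * (x - ⌊x⌋) - b * (⌊x * (b : ℝ) ^ j⌋ / (b : ℝ) ^ j - ⌊x⌋)) := by
    have := (hasSum_nat_add_iff' (f := fun n => (digit b x n : ℝ) / (b : ℝ) ^ n) j).mpr h1
    rw [DigM.partial_sum b x hb j] at this
    exact this
  have h3 := h2.mul_left ((b : ℝ) ^ j)
  have h4 : (b : ℝ) ^ j * (b * (x - ⌊x⌋) - b * (⌊x * (b : ℝ) ^ j⌋ / (b : ℝ) ^ j - ⌊x⌋)) =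
      (b : ℝ) ^ (j + 1) * x - b * ⌊x * (b : ℝ) ^ j⌋ := by
    field_simp
    ring
  have h5 : (fun n => (b : ℝ) ^ j * ((digit b x (n + j) : ℝ) / (b : ℝ) ^ (n + j))) =
      fun n => (digit b x (n + j) : ℝ) / (b : ℝ) ^ n := by
    funext n
    rw [pow_add]
    field_simp
  rw [h4, h5] at h3
  exact h3

/-- The sequence `n ↦ ∑ q_j d_(n+j)`. -/
theorem bet_rel (b : ℕ) (x : ℝ) (hb : 2 ≤ b) (q : ℤ[X]) :
    bet b (fun n => q.sum fun j a => a * digit b x (n + j)) =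
      (((b : ℤ) * q.eval (b : ℤ) : ℤ) : ℝ) * x -
        ((b * ∑ j ∈ q.support, q.coeff j * ⌊x * (b : ℝ) ^ j⌋ : ℤ) : ℝ) := by
  have h1 : HasSum (fun n => ((q.sum fun j a => a * digit b x (n + j) : ℤ) : ℝ) / (b : ℝ) ^ n)
      (∑ j ∈ q.support, (q.coeff j : ℝ) *
        ((b : ℝ) ^ (j + 1) * x - b * ⌊x * (b : ℝ) ^ j⌋)) := by
    have h2 := hasSum_sum (f := fun j n => (q.coeff j : ℝ) *
      ((digit b x (n + j) : ℝ) / (b : ℝ) ^ n)) (s := q.support)
      (a := fun j => (q.coeff j : ℝ) * ((b : ℝ) ^ (j + 1) * x - b * ⌊x * (b : ℝ) ^ j⌋))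
      (fun j _ => (hasSum_shift b x hb j).mul_left _)
    convert h2 using 1
    funext n
    rw [Polynomial.sum_def]
    push_cast
    rw [Finset.sum_div]
    refine Finset.sum_congr rfl fun j _ => ?_
    ring
  rw [bet, h1.tsum_eq, Polynomial.eval_eq_sum, Polynomial.sum_def]
  push_cast
  rw [Finset.mul_sum, Finset.sum_mul, Finset.mul_sum, ← Finset.sum_sub_distrib]
  refine Finset.sum_congr rfl fun j _ => ?_
  ring

/-- Linear relations between consecutive digits fail often. -/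
theorem relations (hT : SpecTHR) (b : ℕ) (x : ℝ) (hb : 2 ≤ b) (halg : IsAlgebraic ℚ x)
    (hirr : Irrational x) (q : ℤ[X]) (hq : q.eval (b : ℤ) ≠ 0) (δ : ℝ) (hδ : 0 < δ) :
    ∃ N₀ : ℕ, ∀ N : ℕ, N₀ ≤ N → Real.log N ^ (3 - δ) ≤
        ((Finset.range N).filter fun n => q.sum (fun j a => a * digit b x (n + j)) ≠ 0).card := by
  have hb0 : (b : ℤ) ≠ 0 := by positivity
  have hne : (b : ℤ) * q.eval (b : ℤ) ≠ 0 := mul_ne_zero hb0 hq
  have hbet := bet_rel b x hb q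
  have hbound : ∀ n, |q.sum fun j a => a * digit b x (n + j)| ≤
      ((∑ j ∈ q.support, (q.coeff j).natAbs * b : ℕ) : ℤ) := by
    intro n
    rw [Polynomial.sum_def]
    refine (Finset.abs_sum_le_sum_abs _ _).trans ?_
    push_cast
    refine Finset.sum_le_sum fun j _ => ?_
    rw [abs_mul]
    have h1 := DigM.digit_nonneg b x hb (n + j)
    have h2 := DigM.digit_lt b x hb (n + j)
    rw [abs_of_nonneg h1]
    exact mul_le_mul_of_nonneg_left h2.le (abs_nonneg _)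
  refine hT b _ _ hb hbound ?_ ?_ δ hδ
  · rw [hbet]
    exact ((isAlgebraic_intCast _).mul halg).sub (isAlgebraic_intCast _)
  · rw [hbet]
    exact (hirr.intCast_mul hne).sub_intCast _

/-- Digit changes. -/
theorem changes (hT : SpecTHR) (b : ℕ) (x : ℝ) (hb : 2 ≤ b) (halg : IsAlgebraic ℚ x)
    (hirr : Irrational x) (δ : ℝ) (hδ : 0 < δ) :
    ∃ N₀ : ℕ, ∀ N : ℕ, N₀ ≤ N → Real.log N ^ (3 - δ) ≤
        ((Finset.range N).filter fun n => digit b x n ≠ digit b x (n + 1)).card := by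
  have hbet := DigM.bet_eq b x hb
  have hbound : ∀ n, |digit b x (n + 1) - digit b x n| ≤ b := by
    intro n
    have h1 := DigM.digit_nonneg b x hb n
    have h2 := DigM.digit_nonneg b x hb (n + 1)
    have h3 := DigM.digit_lt b x hb n
    have h4 := DigM.digit_lt b x hb (n + 1)
    rw [abs_le]
    constructor <;> linarith
  have hcast : ((b : ℝ) ^ 2 - b) * x - (((b : ℝ) ^ 2 - b) * ⌊x⌋ + b * digit b x 0) =
      (((b : ℤ) ^ 2 - b : ℤ) : ℝ) * x - ((((b : ℤ) ^ 2 - b) * ⌊x⌋ + b * digit b x 0 : ℤ) : ℝ) := by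
    push_cast
    ring
  have hne : ((b : ℤ) ^ 2 - b : ℤ) ≠ 0 := by
    have : (2 : ℤ) ≤ b := by exact_mod_cast hb
    nlinarith
  have halg' : IsAlgebraic ℚ (bet b (fun n => digit b x (n + 1) - digit b x n)) := by
    rw [hbet, hcast]
    exact ((isAlgebraic_intCast _).mul halg).sub (isAlgebraic_intCast _)
  have hirr' : Irrational (bet b (fun n => digit b x (n + 1) - digit b x n)) := by
    rw [hbet, hcast]
    exact (hirr.intCast_mul hne).sub_intCast _
  obtain ⟨N₀, h⟩ := hT b _ b hb hbound halg' hirr' δ hδ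
  refine ⟨N₀, fun N hN => (h N hN).trans (le_of_eq ?_)⟩
  congr 2
  refine Finset.filter_congr fun i _ => ?_
  rw [ne_eq, ne_eq, sub_eq_zero]
  exact not_congr eq_comm

end FINM

theorem specFIN (hT : SpecTHR) : SpecFIN :=
  ⟨fun b x hb halg hirr q hq δ hδ => FINM.relations hT b x hb halg hirr q hq δ hδ,
    fun b x hb halg hirr δ hδ => FINM.changes hT b x hb halg hirr δ hδ⟩

end Pool.Agent.Lib.MP5b6025.DD
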