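import Pool.Agent.Lib.MP_5b6025_nt.DD.Spec
import Pool.Agent.Lib.MP_5b6025_nt.DC.Gaps

/-!
# GAP: counting and gaps
-/

set_option autoImplicit false

namespace Pool.Agent.Lib.MP5b6025.DD

namespace GapM

open Classical in
/-- the indicator sequence -/
noncomputable def ind (S : Set ℕ) : ℕ → ℤ := fun x => if x ∈ S then 1 else 0

theorem ind_ne {S : Set ℕ} {x : ℕ} : ind S x ≠ 0 ↔ x ∈ S := by
  unfold ind
  by_cases h : x ∈ S
  · simp [h]
  · simp [h]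

theorem isSum_iff {S : Set ℕ} {m v : ℕ} : DC.IsSum (ind S) m v ↔ IsSumS S m v := by
  unfold DC.IsSum IsSumS
  simp only [ind_ne]

theorem gap_iff {S : Set ℕ} {K m : ℕ} {X : ℤ} : DC.Gap (ind S) K m X ↔ GapS S K m X := by
  unfold DC.Gap GapS
  simp only [isSum_iff]

theorem cnt_eq (S : Set ℕ) (W : ℕ) :
    ((Finset.range (W + 1)).filter fun n => ind S n ≠ 0).card = cnt S W := by
  classical
  unfold cnt
  congr 1
  ext x
  rw [Finset.mem_filter, Finset.mem_filter, ind_ne]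

open Classical in
/-- sums of at most `m` elements are in `T` -/
theorem mem_T {S : Set ℕ} {W m v : ℕ} (h : IsSumS S m v) (hv : v ≤ W) :
    v ∈ DC.GapsM.T ((Finset.range (W + 1)).filter (· ∈ S)) m := by
  obtain ⟨ν, h1, h2, h3⟩ := h
  rw [← h3]
  refine DC.GapsM.mem_T _ m ν h1 fun x hx => ?_
  have h8 : x ≤ ν.sum := Multiset.le_sum_of_mem hx
  rw [Finset.mem_filter, Finset.mem_range]
  exact ⟨by omega, h2 x hx⟩

theorem exists_good {S : Set ℕ} {W A m : ℕ} (hA : cnt S W ≤ A) (K G y : ℕ) (M : Finset ℕ)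
    (hM : ∀ μ ∈ M, 1 ≤ μ ∧ μ * (y + G) + K ≤ W) (hG : M.card * ((A + 1) ^ m * K) < G) :
    ∃ Y : ℕ, y ≤ Y ∧ Y < y + G ∧ ∀ μ ∈ M, GapS S K m ((μ * Y : ℕ) : ℤ) := by
  classical
  by_contra hcon
  push Not at hcon
  have h1 : ∀ Y : ℕ, ∃ p : ℕ × ℕ, y ≤ Y → Y < y + G →
      p.1 ∈ M ∧ IsSumS S m p.2 ∧ p.1 * Y ≤ p.2 ∧ p.2 < p.1 * Y + K := by
    intro Y
    by_cases h : y ≤ Y ∧ Y < y + G
    · obtain ⟨μ, hμ, hg⟩ := hcon Y h.1 h.2
      unfold GapS at hg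
      push Not at hg
      obtain ⟨v, hv, h2, h3⟩ := hg
      refine ⟨(μ, v), fun _ _ => ⟨hμ, hv, ?_, ?_⟩⟩
      · exact_mod_cast h2
      · exact_mod_cast h3
    · exact ⟨(0, 0), fun h1 h2 => absurd ⟨h1, h2⟩ h⟩
  choose p hp using h1
  set S' := (Finset.range (W + 1)).filter (· ∈ S) with hS'
  have hmaps : ∀ Y ∈ Finset.Ico y (y + G), ((p Y).1, (p Y).2, (p Y).2 - (p Y).1 * Y) ∈
      M ×ˢ (DC.GapsM.T S' m ×ˢ Finset.range K) := by
    intro Y hY
    obtain ⟨hy1, hy2⟩ := Finset.mem_Ico.1 hY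
    obtain ⟨h1, h2, h3, h4⟩ := hp Y hy1 hy2
    obtain ⟨h5, h6⟩ := hM _ h1
    have h7 : (p Y).1 * Y ≤ (p Y).1 * (y + G) := Nat.mul_le_mul_left _ hy2.le
    rw [Finset.mem_product, Finset.mem_product, Finset.mem_range]
    refine ⟨h1, mem_T h2 ?_, ?_⟩
    · change (p Y).2 ≤ W
      omega
    · change (p Y).2 - (p Y).1 * Y < K
      omega
  have hinj : Set.InjOn (fun Y => ((p Y).1, (p Y).2, (p Y).2 - (p Y).1 * Y))
      (Finset.Ico y (y + G) : Finset ℕ) := by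
    intro Y hY Z hZ h
    obtain ⟨hy1, hy2⟩ := Finset.mem_Ico.1 (Finset.mem_coe.1 hY)
    obtain ⟨hz1, hz2⟩ := Finset.mem_Ico.1 (Finset.mem_coe.1 hZ)
    obtain ⟨h1, -, h3, -⟩ := hp Y hy1 hy2
    obtain ⟨-, -, h3', -⟩ := hp Z hz1 hz2
    simp only [Prod.mk.injEq] at h
    obtain ⟨e1, e2, e3⟩ := h
    have h4 : (p Y).1 * Y = (p Z).1 * Z := by omega
    rw [← e1] at h4
    exact Nat.eq_of_mul_eq_mul_left (hM _ h1).1 h4
  have hc := Finset.card_le_card_of_injOn _ hmaps hinj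
  rw [Nat.card_Ico, Finset.card_product, Finset.card_product, Finset.card_range] at hc
  have hT : (DC.GapsM.T S' m).card ≤ (A + 1) ^ m := DC.GapsM.card_T S' A hA m
  have h9 : M.card * ((DC.GapsM.T S' m).card * K) ≤ M.card * ((A + 1) ^ m * K) :=
    Nat.mul_le_mul_left _ (Nat.mul_le_mul_right _ hT)
  omega

end GapM

open GapM in
theorem specGAP : SpecGAP := by
  intro S W A m hA
  have h := DC.specGAPS (ind S) W A m ((cnt_eq S W).le.trans hA)
  simp only [gap_iff, isSum_iff] at h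
  exact ⟨h.1, h.2, fun K G y M hM hG => exists_good hA K G y M hM hG⟩

end Pool.Agent.Lib.MP5b6025.DD
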