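import Pool.Agent.Lib.MP_5b6025_nt.DD.Spec
import Pool.Agent.Lib.MP_5b6025_nt.RP.Main

/-!
# Digit changes with exponent 3, module RLS: primes without roots (from `RP/Main.lean`)
-/

set_option autoImplicit false

open Polynomial

namespace Pool.Agent.Lib.MP5b6025.DD

namespace RlsM

theorem nr_eq_zero {P : ℤ[X]} {l : ℕ} (hl : l.Prime) (h : RP.rho P l = 0) : nr P l = 0 := by
  rw [RP.rho_eq_zero_iff hl] at h
  rw [nr, Finset.card_eq_zero, Finset.filter_eq_empty_iff]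
  intro r _ hr
  apply h (r : ZMod l)
  have h1 : ((P.eval (r : ℤ) : ℤ) : ZMod l) = 0 := (ZMod.intCast_zmod_eq_zero_iff_dvd _ _).2 hr
  have h2 : P.eval₂ (Int.castRingHom (ZMod l)) (r : ZMod l) = ((P.eval (r : ℤ) : ℤ) : ZMod l) := by
    simp
  rw [h2, h1]

end RlsM

theorem specRLS : SpecRLS := by
  intro P hP hd η hη
  obtain ⟨D₀, h⟩ := RP.rootless_primes hP hd hη
  refine ⟨D₀, fun x hx => (h x hx).trans ?_⟩
  norm_cast
  apply Finset.card_le_card
  intro l hl
  rw [Finset.mem_filter, Finset.mem_Ioc] at hl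
  rw [Finset.mem_filter, Finset.mem_range]
  exact ⟨by omega, hl.2.1, RlsM.nr_eq_zero hl.2.1 hl.2.2⟩

end Pool.Agent.Lib.MP5b6025.DD
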