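import Pool.Agent.Lib.MP_5b6025_nt.DD.Spec

/-!
# Module SPL: separability modulo large primes (helper32)
-/

set_option autoImplicit false

open Polynomial

namespace Pool.Agent.Lib.MP5b6025.DD.SPLM

/-- Bezout with integer coefficients. -/
theorem bezout {P : ℤ[X]} (hP : Irreducible (P.map (Int.castRingHom ℚ))) :
    ∃ (U V : ℤ[X]) (N : ℤ), N ≠ 0 ∧ U * P + V * derivative P = C N := by
  obtain ⟨a, b, hab⟩ := hP.separable
  obtain ⟨na, hna, hna'⟩ := IsLocalization.integerNormalization_spec (nonZeroDivisors ℤ) a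
  obtain ⟨nb, hnb, hnb'⟩ := IsLocalization.integerNormalization_spec (nonZeroDivisors ℤ) b
  set A := IsLocalization.integerNormalization (nonZeroDivisors ℤ) a with hA
  set B := IsLocalization.integerNormalization (nonZeroDivisors ℤ) b with hB
  have hcast : (algebraMap ℤ ℚ) = Int.castRingHom ℚ := rfl
  rw [hcast] at hna' hnb'
  have hinj : Function.Injective (Polynomial.map (Int.castRingHom ℚ)) :=
    Polynomial.map_injective _ Int.cast_injective
  refine ⟨C nb * A, C na * B, na * nb,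
    mul_ne_zero (nonZeroDivisors.ne_zero hna) (nonZeroDivisors.ne_zero hnb), ?_⟩
  apply hinj
  have e1 : (na • a : ℚ[X]) = C (na : ℚ) * a := by
    rw [← Polynomial.smul_eq_C_mul]
    exact (Int.cast_smul_eq_zsmul ℚ na a).symm
  have e2 : (nb • b : ℚ[X]) = C (nb : ℚ) * b := by
    rw [← Polynomial.smul_eq_C_mul]
    exact (Int.cast_smul_eq_zsmul ℚ nb b).symm
  rw [e1] at hna'
  rw [e2] at hnb'
  simp only [Polynomial.map_add, Polynomial.map_mul, Polynomial.map_C, hna', hnb',
    ← Polynomial.derivative_map]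
  have : (Int.castRingHom ℚ) na = (na : ℚ) := rfl
  have h2 : (Int.castRingHom ℚ) nb = (nb : ℚ) := rfl
  rw [map_mul, this, h2, map_mul]
  linear_combination (C (na : ℚ) * C (nb : ℚ)) * hab

end Pool.Agent.Lib.MP5b6025.DD.SPLM

namespace Pool.Agent.Lib.MP5b6025.DD

theorem specSPL : SpecSPL := by
  intro P hP
  obtain ⟨U, V, N, hN, hUV⟩ := SPLM.bezout hP
  have hP0 : P ≠ 0 := by
    rintro rfl
    simp at hP
  have hlead : P.leadingCoeff ≠ 0 := by simpa using hP0
  refine ⟨N.natAbs + P.leadingCoeff.natAbs + 1, fun l hl hle => ?_⟩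
  have : Fact l.Prime := ⟨hl⟩
  have hnd : ∀ z : ℤ, z ≠ 0 → z.natAbs < l → (Int.castRingHom (ZMod l)) z ≠ 0 := by
    intro z hz hzl h0
    have h1 : (l : ℤ) ∣ z := (ZMod.intCast_zmod_eq_zero_iff_dvd z l).1 (by simpa using h0)
    have h2 : l ∣ z.natAbs := Int.natCast_dvd.1 h1
    have := Nat.le_of_dvd (Int.natAbs_pos.2 hz) h2
    omega
  have hl1 : (Int.castRingHom (ZMod l)) P.leadingCoeff ≠ 0 := hnd _ hlead (by omega)
  have hl2 : (Int.castRingHom (ZMod l)) N ≠ 0 := hnd _ hN (by omega)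
  refine ⟨Polynomial.natDegree_map_of_leadingCoeff_ne_zero _ hl1, ?_⟩
  have h3 := congrArg (Polynomial.map (Int.castRingHom (ZMod l))) hUV
  simp only [Polynomial.map_add, Polynomial.map_mul, Polynomial.map_C,
    ← Polynomial.derivative_map] at h3
  refine ⟨C ((Int.castRingHom (ZMod l)) N)⁻¹ * U.map (Int.castRingHom (ZMod l)),
    C ((Int.castRingHom (ZMod l)) N)⁻¹ * V.map (Int.castRingHom (ZMod l)), ?_⟩
  have h4 : (C ((Int.castRingHom (ZMod l)) N)⁻¹ * C ((Int.castRingHom (ZMod l)) N) :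
      (ZMod l)[X]) = 1 := by
    rw [← map_mul, inv_mul_cancel₀ hl2, map_one]
  linear_combination (C ((Int.castRingHom (ZMod l)) N)⁻¹) * h3 + h4

end Pool.Agent.Lib.MP5b6025.DD
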